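import Pool.Agent.Lib.H18TB.Defs

/-!
# Definitions for the hand-in MP_fbf460_gt.ProductRegions

`Ψ : Euc k → Z → X` is an isometric embedding of the product of the Euclidean space `Euc k` and a
CAT(0) space `Z` into `X`; its image is the product region.
-/

set_option autoImplicit false

namespace Pool.Agent.H18TC

open Filter Topology
open Pool.Agent.H18TB

section

variable {X Z : Type} [MetricSpace X] [MetricSpace Z] {k : ℕ}

/-- `Ψ` is an isometric embedding of the product `Euc k × Z` (with the product metric of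
Pythagoras) into `X`. -/
def IsProductMap (Ψ : Euc k → Z → X) : Prop :=
  ∀ (x x' : Euc k) (z z' : Z), dist (Ψ x z) (Ψ x' z') ^ 2 = dist x x' ^ 2 + dist z z' ^ 2

/-- Up to a bounded distance the product region contains every flat parallel to the flat
`x ↦ Ψ x z₀`: some `C` bounds the distance from the region of the base point of every isometric
embedding `j : Euc k → X` at bounded distance from `x ↦ Ψ x z₀`. -/
def ContainsParallelFlats (Ψ : Euc k → Z → X) (z₀ : Z) : Prop :=
  ∃ C : ℝ, ∀ j : Euc k → X, Isometry j → (∃ D : ℝ, ∀ x : Euc k, dist (j x) (Ψ x z₀) ≤ D) →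
    ∃ (x : Euc k) (z : Z), dist (j 0) (Ψ x z) ≤ C

/-- `RegionCocompactWith G Ψ z₀ R`: every point of the region is brought within bounded distance
of `Ψ 0 z₀` (with constant `R` in both factors) by an element of `G` which preserves the region and
acts on it as the product of a translation of `Euc k` and an isometry of `Z`. -/
def RegionCocompactWith (G : Type) [Group G] [MulAction G X] (Ψ : Euc k → Z → X) (z₀ : Z)
    (R : ℝ) : Prop :=
  ∀ (x : Euc k) (z : Z), ∃ (g : G) (w : Euc k) (τ : Z ≃ᵢ Z),
    (∀ (x' : Euc k) (z' : Z), g • Ψ x' z' = Ψ (x' + w) (τ z')) ∧ ‖x + w‖ ≤ R ∧ dist (τ z) z₀ ≤ R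

/-- The elements of `G` which preserve the region, acting on it as the product of a translation of
`Euc k` and an isometry of `Z`, act cocompactly on the region. -/
def RegionCocompact (G : Type) [Group G] [MulAction G X] (Ψ : Euc k → Z → X) (z₀ : Z) : Prop :=
  ∃ R : ℝ, RegionCocompactWith G Ψ z₀ R

/-- The point at infinity of the ray `t ↦ Ψ (t • u) z₀` has a neighbourhood in the Tits boundary of
`X` contained in the boundary of the region: for some `ε > 0`, every ray `c` of `X` whose distance
from the ray `t ↦ Ψ (t • u) z₀` at time `t` is at most `A + ε * t` for some constant `A` is asymptotic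
to a ray contained in the region. -/
def RelInterior (Ψ : Euc k → Z → X) (z₀ : Z) (u : Euc k) : Prop :=
  ∃ ε : ℝ, 0 < ε ∧ ∀ c : ℝ → X, IsRay c →
    (∃ A : ℝ, ∀ t : ℝ, 0 ≤ t → dist (c t) (Ψ (t • u) z₀) ≤ A + ε * t) →
    ∃ (x : ℝ → Euc k) (z : ℝ → Z), IsRay (fun t => Ψ (x t) (z t)) ∧
      ∃ D : ℝ, ∀ t : ℝ, 0 ≤ t → dist (c t) (Ψ (x t) (z t)) ≤ D

/-! ### Auxiliary notions used only in the proof -/

/-- The product region as a set. -/
def region (Ψ : Euc k → Z → X) : Set X := {p | ∃ (x : Euc k) (z : Z), Ψ x z = p}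

/-- `L` is a line of velocity `v` (not assumed of norm one), parallel to `t ↦ Ψ (a + t • v) b` at
constant distance `M`, all of whose points have distance at least `M` from the region. -/
def VFar (Ψ : Euc k → Z → X) (M : ℝ) (v : Euc k) (L : ℝ → X) (a : Euc k) (b : Z) : Prop :=
  (∀ s t : ℝ, dist (L s) (L t) = ‖v‖ * |s - t|) ∧
  (∀ t : ℝ, dist (L t) (Ψ (a + t • v) b) = M) ∧
  ∀ (t : ℝ) (x : Euc k) (z : Z), M ≤ dist (L t) (Ψ x z)

end

end Pool.Agent.H18TC
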