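import Pool.Agent.Lib.H18TC.PB
import Pool.Agent.Lib.H18TB.E1

/-!
# PQ: the conclusion of Q1 when the factor `Z` is bounded
-/

set_option autoImplicit false

namespace Pool.Agent.H18TC

open Filter Topology Metric
open Pool.Agent.H18TB

variable {X Z : Type} [MetricSpace X] [MetricSpace Z] {k : ℕ}

/-- Proof.  A ray `t ↦ Ψ (x t) (z t)` of the region has `x t = x 0 + t • v` and
`dist (z 0) (z t) = √(1 - ‖v‖ ^ 2) * t` (`product_ray`); since `Z` is bounded `‖v‖ = 1`, and the ray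
is at bounded distance from `t ↦ Ψ (t • v) z₀`. -/
theorem interior_of_bounded (hX : IsCAT0 X) (hZ : IsCAT0 Z) {Ψ : Euc k → Z → X}
    (hΨ : IsProductMap Ψ) {z₀ : Z} {u : Euc k} (hb : Bornology.IsBounded (Set.univ : Set Z))
    (h : RelInterior Ψ z₀ u) : InteriorDirection (fun x => Ψ x z₀) u := by
  obtain ⟨ε, hε, h⟩ := h
  refine ⟨ε, hε, fun c hc hA => ?_⟩
  obtain ⟨x, z, hr, D, hD⟩ := h c hc hA
  obtain ⟨v, hv1, hx, hz⟩ := product_ray hX hZ hΨ hr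
  obtain ⟨B, hB⟩ := Metric.isBounded_iff.mp hb
  have hB' : ∀ a b : Z, dist a b ≤ B := fun a b => hB (Set.mem_univ a) (Set.mem_univ b)
  have hβ0 : 0 ≤ Real.sqrt (1 - ‖v‖ ^ 2) := Real.sqrt_nonneg _
  have hB0 : 0 ≤ B := dist_nonneg.trans (hB' z₀ z₀)
  have hβ : Real.sqrt (1 - ‖v‖ ^ 2) = 0 := by
    by_contra hne
    have hpos : 0 < Real.sqrt (1 - ‖v‖ ^ 2) := lt_of_le_of_ne hβ0 (Ne.symm hne)
    have ht : 0 ≤ (B + 1) / Real.sqrt (1 - ‖v‖ ^ 2) := by positivity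
    have h1 := hz ((B + 1) / Real.sqrt (1 - ‖v‖ ^ 2)) 0 ht le_rfl
    rw [sub_zero, abs_of_nonneg ht, mul_div_cancel₀ _ hne] at h1
    have h2 := hB' (z ((B + 1) / Real.sqrt (1 - ‖v‖ ^ 2))) (z 0)
    linarith
  have hv2 : ‖v‖ = 1 := by
    have h1 : 1 - ‖v‖ ^ 2 ≤ 0 := Real.sqrt_eq_zero'.mp hβ
    have h2 : 0 ≤ ‖v‖ := norm_nonneg v
    nlinarith
  refine ⟨v, hv2, D + ‖x 0‖ + B, fun t ht => ?_⟩
  have a1 := dist_triangle (c t) (Ψ (x t) (z t)) (Ψ (t • v) z₀)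
  have a2 := hD t ht
  have a3 := hΨ.dist_le (x t) (t • v) (z t) z₀
  have a4 : dist (x t) (t • v) = ‖x 0‖ := by
    rw [hx t ht, dist_eq_norm, add_sub_cancel_right]
  have a5 := hB' (z t) z₀
  rw [a4] at a3
  show dist (c t) (Ψ (t • v) z₀) ≤ _
  linarith

/-- Proof: `interior_of_bounded` and `hasRelCompactOpen_of_interior`. -/
theorem relCompactOpen_of_bounded [ProperSpace X] (hX : IsCAT0 X) (hZ : IsCAT0 Z)
    {Ψ : Euc k → Z → X} (hΨ : IsProductMap Ψ) {z₀ : Z} {u : Euc k} (hu : ‖u‖ = 1)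
    (hb : Bornology.IsBounded (Set.univ : Set Z)) (h : RelInterior Ψ z₀ u) :
    HasRelCompactOpen X :=
  hasRelCompactOpen_of_interior hX (hΨ.isometry_left z₀) hu (interior_of_bounded hX hZ hΨ hb h)

end Pool.Agent.H18TC
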