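import Pool.Agent.Lib.H18TC.PSA

/-!
# PSC: the lifted set is relatively compact
-/

set_option autoImplicit false

namespace Pool.Agent.H18TC

open Filter Topology Metric
open Pool.Agent.H18TB

variable {X Z : Type} [MetricSpace X] [MetricSpace Z] {k : ℕ}

/-- Relative compactness.  Proof.  Let `v n`, `ζ n`, `D n` be the data of `c n`.  Pass to a subsequence with
`v n → v` (`‖v n‖ ≤ 1`), then, by the hypothesis on `V` applied to this subsequence of the `ζ n`, to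
one with `dist (ζ n t) (ζ t) ≤ η * t` for large `n`, for each `η > 0`, for some ray `ζ` from `z₀`.  Let
`c` be the ray from `x₀` asymptotic to `stdRay Ψ v ζ`.  By `stdRay_dist_le`
`dist (c n t) (c t) ≤ B n + e n * t` with `e n = ‖v n - v‖ + η + |β n - β| → `, and by `ray_growth` (both
from `x₀`) `dist (c n t) (c t) ≤ e n * t`. -/
theorem liftSet_compact [ProperSpace X] (hX : IsCAT0 X) {Ψ : Euc k → Z → X}
    (hΨ : IsProductMap Ψ) {z₀ : Z} {u : Euc k} {ε : ℝ}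
    {V : Set (ℝ → Z)} (hVr : ∀ ζ ∈ V, ζ 0 = z₀ ∧ IsRay ζ)
    (hVc : ∀ ζn : ℕ → ℝ → Z, (∀ n, ζn n ∈ V) → ∃ ζ : ℝ → Z, (ζ 0 = z₀ ∧ IsRay ζ) ∧
      ∃ φ : ℕ → ℕ, StrictMono φ ∧ ∀ η : ℝ, η > 0 → ∃ N : ℕ, ∀ n : ℕ, n ≥ N →
        ∀ t : ℝ, t > 0 → dist (ζn (φ n) t) (ζ t) ≤ η * t)
    (x₀ : X) {cn : ℕ → ℝ → X} (hcn : ∀ n, cn n ∈ liftSet Ψ u ε V x₀) :
    ∃ c : ℝ → X, (c 0 = x₀ ∧ IsRay c) ∧ ∃ φ : ℕ → ℕ, StrictMono φ ∧
      ∀ η : ℝ, η > 0 → ∃ N : ℕ, ∀ n : ℕ, n ≥ N → ∀ t : ℝ, t > 0 →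
        dist (cn (φ n) t) (c t) ≤ η * t := by
  choose h0 hr v ζ hv hζ hin D hD using hcn
  have hball : ∀ n, v n ∈ closedBall (0 : Euc k) 1 := fun n => by
    rw [mem_closedBall_zero_iff]; exact (hv n).le
  obtain ⟨v₀, hv₀, φ₁, hφ₁, hlim⟩ := (isCompact_closedBall (0 : Euc k) 1).tendsto_subseq hball
  rw [mem_closedBall_zero_iff] at hv₀
  obtain ⟨ζ₀, ⟨hζ00, hζ0⟩, φ₂, hφ₂, hζlim⟩ := hVc (fun n => ζ (φ₁ n)) (fun n => hζ (φ₁ n))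
  have hray : IsRay (stdRay Ψ v₀ ζ₀) := by
    have h := region_ray hΨ hv₀ hζ0 (0 : Euc k)
    simp only [zero_add] at h
    exact h
  obtain ⟨c, hc, hc0, hc1⟩ := exists_asymptotic_ray hX hray x₀
  have hlim2 : Tendsto (fun n => v (φ₁ (φ₂ n))) atTop (𝓝 v₀) := hlim.comp hφ₂.tendsto_atTop
  have hβ : Tendsto (fun n => Real.sqrt (1 - ‖v (φ₁ (φ₂ n))‖ ^ 2)) atTop
      (𝓝 (Real.sqrt (1 - ‖v₀‖ ^ 2))) :=
    (tendsto_const_nhds.sub (hlim2.norm.pow 2)).sqrt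
  refine ⟨c, ⟨hc0, hc⟩, fun n => φ₁ (φ₂ n), hφ₁.comp hφ₂, fun η hη => ?_⟩
  obtain ⟨N₁, hN₁⟩ := Metric.tendsto_atTop.mp hlim2 (η / 3) (by positivity)
  obtain ⟨N₂, hN₂⟩ := Metric.tendsto_atTop.mp hβ (η / 3) (by positivity)
  obtain ⟨N₃, hN₃⟩ := hζlim (η / 3) (by positivity)
  refine ⟨max N₁ (max N₂ N₃), fun n hn t ht => ?_⟩
  have hn1 : N₁ ≤ n := (le_max_left _ _).trans hn
  have hn2 : N₂ ≤ n := ((le_max_left _ _).trans (le_max_right _ _)).trans hn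
  have hn3 : N₃ ≤ n := ((le_max_right _ _).trans (le_max_right _ _)).trans hn
  have e1 : ‖v (φ₁ (φ₂ n)) - v₀‖ < η / 3 := by
    rw [← dist_eq_norm]; exact hN₁ n hn1
  have e2 : |Real.sqrt (1 - ‖v (φ₁ (φ₂ n))‖ ^ 2) - Real.sqrt (1 - ‖v₀‖ ^ 2)| < η / 3 := by
    rw [← Real.dist_eq]; exact hN₂ n hn2
  have e3 := hN₃ n hn3
  set m := φ₁ (φ₂ n) with hm
  set β := Real.sqrt (1 - ‖v m‖ ^ 2) with hβdef
  have hβ0 : 0 ≤ β := Real.sqrt_nonneg _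
  have hβ1 : β ≤ 1 := by
    rw [hβdef]
    exact Real.sqrt_le_one.2 (by nlinarith [norm_nonneg (v m)])
  have hb : ∀ t : ℝ, 0 ≤ t → dist (cn m t) (c t) ≤
      (D m + dist x₀ (stdRay Ψ v₀ ζ₀ 0)) + η * t := by
    intro t ht
    have a1 := dist_triangle4 (cn m t) (stdRay Ψ (v m) (ζ m) t) (stdRay Ψ v₀ ζ₀ t) (c t)
    have a2 := hD m t ht
    have a3 := stdRay_dist_le hΨ (v := v m) (v' := v₀) (ζ := ζ m) (ζ' := ζ₀) hζ0 ht
    rw [← hβdef] at a3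
    have a4 : dist (stdRay Ψ v₀ ζ₀ t) (c t) ≤ dist x₀ (stdRay Ψ v₀ ζ₀ 0) := by
      rw [dist_comm]; exact hc1 t ht
    have a5 : dist (ζ m (β * t)) (ζ₀ (β * t)) ≤ η / 3 * t := by
      have hbt : 0 ≤ β * t := mul_nonneg hβ0 ht
      rcases hbt.eq_or_lt with h2 | h2
      · rw [← h2, hζ00, (hVr _ (hζ m)).1, dist_self]
        positivity
      · refine (e3 (β * t) h2).trans ?_
        have : β * t ≤ t := by nlinarith
        exact mul_le_mul_of_nonneg_left this (by positivity)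
    have a6 : t * ‖v m - v₀‖ ≤ η / 3 * t := by
      rw [mul_comm]; exact mul_le_mul_of_nonneg_right e1.le ht
    have a7 : |β - Real.sqrt (1 - ‖v₀‖ ^ 2)| * t ≤ η / 3 * t :=
      mul_le_mul_of_nonneg_right e2.le ht
    linarith
  have hg := ray_growth hX (hr m) hc hb ht.le
  rw [h0 m, hc0, dist_self, zero_add] at hg
  exact hg

end Pool.Agent.H18TC
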