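import Pool.Agent.Lib.H18TC.PSB
import Pool.Agent.Lib.H18TC.PSC

/-!
# PS: the conclusion of Q1 passes from the factor `Z` to `X`
-/

set_option autoImplicit false

namespace Pool.Agent.H18TC

open Filter Topology Metric
open Pool.Agent.H18TB

variable {X Z : Type} [MetricSpace X] [MetricSpace Z] {k : ℕ}

/-- Proof: `liftSet Ψ u ε V x₀` with `ε` from `RelInterior` and `V` from `HasRelCompactOpen Z` at
`z₀`. -/
theorem relCompactOpen_of_factor [ProperSpace X] [CompleteSpace Z] (hX : IsCAT0 X)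
    (hZ : IsCAT0 Z) {Ψ : Euc k → Z → X} (hΨ : IsProductMap Ψ) {z₀ : Z} {u : Euc k}
    (hu : ‖u‖ = 1) (h : RelInterior Ψ z₀ u) (hZc : HasRelCompactOpen Z) :
    HasRelCompactOpen X := by
  obtain ⟨ε, hε, hint⟩ := h
  intro x₀
  obtain ⟨V, hVne, hVr, hVo, hVc⟩ := hZc z₀
  have hVr' : ∀ ζ ∈ V, ζ 0 = z₀ ∧ IsRay ζ := fun ζ hζ => hVr ζ hζ
  refine ⟨liftSet Ψ u ε V x₀, liftSet_nonempty hX hΨ hu hε hVne hVr' x₀, ?_, ?_, ?_⟩
  · intro c hc
    exact ⟨hc.1, hc.2.1⟩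
  · intro c hc
    exact liftSet_open hX hZ hΨ hu hε hint hVr' hVo x₀ hc
  · intro cn hcn
    exact liftSet_compact hX hΨ hVr' hVc x₀ hcn

end Pool.Agent.H18TC
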