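import Pool.Agent.Lib.H18TC.PO
import Pool.Agent.Lib.H18TC.PQ
import Pool.Agent.Lib.H18TC.PS

/-!
# Main: assembly
-/

set_option autoImplicit false

namespace Pool.Agent.H18TC

open Filter Topology Metric
open Pool.Agent.H18TB

theorem main_theorem (X Z : Type) [MetricSpace X] [ProperSpace X] [MetricSpace Z]
    [CompleteSpace Z] (G : Type) [Group G] [MulAction G X] (hX : IsCAT0 X) (hZ : IsCAT0 Z)
    (hiso : ∀ (g : G) (x y : X), dist (g • x) (g • y) = dist x y)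
    (k : ℕ) (Ψ : Euc k → Z → X) (hΨ : IsProductMap Ψ) (z₀ : Z)
    (hP : ContainsParallelFlats Ψ z₀) (hco : RegionCocompact G Ψ z₀) :
    (∀ u : Euc k, ‖u‖ = 1 → ∀ ε : ℝ, 0 < ε →
      ∃ u' : Euc k, ‖u'‖ = 1 ∧ ‖u' - u‖ < ε ∧ RelInterior Ψ z₀ u') ∧
    (1 ≤ k → (Bornology.IsBounded (Set.univ : Set Z) ∨ HasRelCompactOpen Z) →
      HasRelCompactOpen X) := by
  have h1 : ∀ u : Euc k, ‖u‖ = 1 → ∀ ε : ℝ, 0 < ε →
      ∃ u' : Euc k, ‖u'‖ = 1 ∧ ‖u' - u‖ < ε ∧ RelInterior Ψ z₀ u' :=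
    fun u hu ε hε => dense_relInterior hX hZ hiso hΨ hco hP hu hε
  refine ⟨h1, fun hk h => ?_⟩
  obtain ⟨u, hu, -, hint⟩ := h1 (EuclideanSpace.single ⟨0, hk⟩ (1 : ℝ)) (by simp) 1 one_pos
  rcases h with h | h
  · exact relCompactOpen_of_bounded hX hZ hΨ hu h hint
  · exact relCompactOpen_of_factor hX hZ hΨ hu hint h

end Pool.Agent.H18TC
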