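import Pool.Agent.Lib.H18TC.Defs
import Pool.Agent.Lib.H18TB.FL

/-!
# PA: basic properties of product regions
-/

set_option autoImplicit false

namespace Pool.Agent.H18TC

open Filter Topology Metric
open Pool.Agent.H18TB

variable {X Z : Type} [MetricSpace X] [MetricSpace Z] {k : ℕ}

theorem IsProductMap.isometry_left {Ψ : Euc k → Z → X} (hΨ : IsProductMap Ψ) (z : Z) :
    Isometry (fun x => Ψ x z) := by
  refine Isometry.of_dist_eq fun x x' => ?_
  have h := hΨ x x' z z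
  rw [dist_self, zero_pow two_ne_zero, add_zero] at h
  exact (pow_left_inj₀ dist_nonneg dist_nonneg two_ne_zero).1 h

theorem IsProductMap.isometry_right {Ψ : Euc k → Z → X} (hΨ : IsProductMap Ψ) (x : Euc k) :
    Isometry (fun z => Ψ x z) := by
  refine Isometry.of_dist_eq fun z z' => ?_
  have h := hΨ x x z z'
  rw [dist_self, zero_pow two_ne_zero, zero_add] at h
  exact (pow_left_inj₀ dist_nonneg dist_nonneg two_ne_zero).1 h

theorem IsProductMap.dist_fst_le {Ψ : Euc k → Z → X} (hΨ : IsProductMap Ψ) (x x' : Euc k)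
    (z z' : Z) : dist x x' ≤ dist (Ψ x z) (Ψ x' z') := by
  have h := hΨ x x' z z'
  refine (pow_le_pow_iff_left₀ dist_nonneg dist_nonneg two_ne_zero).1 ?_
  rw [h]
  exact le_add_of_nonneg_right (sq_nonneg _)

theorem IsProductMap.dist_snd_le {Ψ : Euc k → Z → X} (hΨ : IsProductMap Ψ) (x x' : Euc k)
    (z z' : Z) : dist z z' ≤ dist (Ψ x z) (Ψ x' z') := by
  have h := hΨ x x' z z'
  refine (pow_le_pow_iff_left₀ dist_nonneg dist_nonneg two_ne_zero).1 ?_
  rw [h]
  exact le_add_of_nonneg_left (sq_nonneg _)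

theorem IsProductMap.dist_le {Ψ : Euc k → Z → X} (hΨ : IsProductMap Ψ) (x x' : Euc k)
    (z z' : Z) : dist (Ψ x z) (Ψ x' z') ≤ dist x x' + dist z z' := by
  have h := hΨ x x' z z'
  have h1 : 0 ≤ dist x x' * dist z z' := mul_nonneg dist_nonneg dist_nonneg
  refine (pow_le_pow_iff_left₀ dist_nonneg (add_nonneg dist_nonneg dist_nonneg)
    two_ne_zero).1 ?_
  rw [h]
  nlinarith

/-- Lines of the region. -/
theorem IsProductMap.line {Ψ : Euc k → Z → X} (hΨ : IsProductMap Ψ) {u : Euc k} (hu : ‖u‖ = 1)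
    (a : Euc k) (b : Z) : IsLine (fun t : ℝ => Ψ (a + t • u) b) := by
  exact flat_line (hΨ.isometry_left b) hu a

theorem IsProductMap.line0 {Ψ : Euc k → Z → X} (hΨ : IsProductMap Ψ) {u : Euc k} (hu : ‖u‖ = 1)
    (b : Z) : IsLine (fun t : ℝ => Ψ (t • u) b) := by
  exact flat_line0 (hΨ.isometry_left b) hu

/-- Midpoints in the region. -/
theorem IsProductMap.mid {Ψ : Euc k → Z → X} (hΨ : IsProductMap Ψ) (x x' : Euc k) {z z' m : Z}
    (hm : IsMid z z' m) : IsMid (Ψ x z) (Ψ x' z') (Ψ ((1 / 2 : ℝ) • (x + x')) m) := by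
  have h0 : IsMid x x' ((1 / 2 : ℝ) • (x + x')) := flat_mid (i := fun y : Euc k => y)
    isometry_id x x'
  have hd := hΨ x x' z z'
  refine ⟨?_, ?_⟩
  · have h := hΨ x ((1 / 2 : ℝ) • (x + x')) z m
    rw [h0.1, hm.1] at h
    refine (pow_left_inj₀ dist_nonneg (by positivity) two_ne_zero).1 ?_
    rw [h, div_pow, div_pow, div_pow, hd]
    ring
  · have h := hΨ x' ((1 / 2 : ℝ) • (x + x')) z' m
    rw [h0.2, hm.2] at h
    refine (pow_left_inj₀ dist_nonneg (by positivity) two_ne_zero).1 ?_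
    rw [h, div_pow, div_pow, div_pow, hd]
    ring

/-- Proof: `IsProductMap.mid`, `exists_mid` in `Z` and `IsMid.unique` in `X`. -/
theorem region_midClosed (hX : IsCAT0 X) (hZ : IsCAT0 Z) {Ψ : Euc k → Z → X}
    (hΨ : IsProductMap Ψ) : MidClosed (region Ψ) := by
  rintro a ⟨x, z, rfl⟩ b ⟨x', z', rfl⟩ m hm
  obtain ⟨m0, hm0⟩ := exists_mid hZ z z'
  exact ⟨_, _, IsMid.unique hX (hΨ.mid x x' hm0) hm⟩

/-- `Z` is isometric to a closed subset of `X`. -/
theorem proper_factor [ProperSpace X] [CompleteSpace Z] {Ψ : Euc k → Z → X}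
    (hΨ : IsProductMap Ψ) : ProperSpace Z := by
  have hi := hΨ.isometry_right (0 : Euc k)
  have hc := hi.isClosedEmbedding
  refine ⟨fun z r => ?_⟩
  have h1 : closedBall z r = (fun z' : Z => Ψ 0 z') ⁻¹' closedBall (Ψ 0 z) r := by
    ext z'
    rw [Set.mem_preimage, mem_closedBall, mem_closedBall, hi.dist_eq]
  rw [h1]
  exact hc.isCompact_preimage (isCompact_closedBall _ _)

/-- The region is closed and has nearest points.  Proof: minimising sequences `Ψ (x n) (z n)` have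
bounded `x n` and `z n`, and `Euc k` and `Z` are proper (`proper_factor`). -/
theorem region_nearest [ProperSpace X] [CompleteSpace Z] [Nonempty Z] {Ψ : Euc k → Z → X}
    (hΨ : IsProductMap Ψ) (a : X) :
    ∃ (x : Euc k) (z : Z), dist a (Ψ x z) = infDist a (region Ψ) := by
  have : ProperSpace Z := proper_factor hΨ
  obtain ⟨z0⟩ := ‹Nonempty Z›
  have hL : LipschitzWith 2 (fun p : Euc k × Z => Ψ p.1 p.2) := by
    refine LipschitzWith.of_dist_le_mul fun p q => ?_
    have h1 := hΨ.dist_le p.1 q.1 p.2 q.2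
    have h2 : dist p.1 q.1 ≤ dist p q := le_max_left _ _
    have h3 : dist p.2 q.2 ≤ dist p q := le_max_right _ _
    have h4 : ((2 : NNReal) : ℝ) = 2 := rfl
    rw [h4]
    linarith
  have hcont : Continuous (fun p : Euc k × Z => dist a (Ψ p.1 p.2)) :=
    continuous_const.dist hL.continuous
  obtain ⟨p, hp⟩ : ∃ p : Euc k × Z, ∀ q : Euc k × Z,
      dist a (Ψ p.1 p.2) ≤ dist a (Ψ q.1 q.2) := by
    set R : ℝ := 2 * dist a (Ψ 0 z0) with hR
    have hR0 : 0 ≤ R := by positivity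
    obtain ⟨p, hpm, hp⟩ := (isCompact_closedBall ((0 : Euc k), z0) R).exists_isMinOn
      ⟨(0, z0), mem_closedBall_self hR0⟩ hcont.continuousOn
    refine ⟨p, fun q => ?_⟩
    by_cases hq : q ∈ closedBall ((0 : Euc k), z0) R
    · exact hp hq
    · have h0 : dist a (Ψ p.1 p.2) ≤ dist a (Ψ 0 z0) := hp (mem_closedBall_self hR0)
      have h1 : R < dist q ((0 : Euc k), z0) := by
        rw [mem_closedBall, not_le] at hq
        exact hq
      have h2 : dist q ((0 : Euc k), z0) ≤ dist (Ψ q.1 q.2) (Ψ 0 z0) :=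
        max_le (hΨ.dist_fst_le _ _ _ _) (hΨ.dist_snd_le _ _ _ _)
      have h3 : dist (Ψ q.1 q.2) (Ψ 0 z0) ≤ dist a (Ψ q.1 q.2) + dist a (Ψ 0 z0) := by
        rw [dist_comm a (Ψ q.1 q.2)]
        exact dist_triangle _ _ _
      linarith
  refine ⟨p.1, p.2, le_antisymm ?_ (infDist_le_dist_of_mem ⟨p.1, p.2, rfl⟩)⟩
  have hne : (region Ψ).Nonempty := ⟨Ψ p.1 p.2, p.1, p.2, rfl⟩
  refine (le_infDist hne).mpr ?_
  rintro _ ⟨x, z, rfl⟩
  exact hp (x, z)

end Pool.Agent.H18TC
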