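import Pool.Agent.Lib.H18TC.PA

/-!
# PB: rays in a product region
-/

set_option autoImplicit false

namespace Pool.Agent.H18TC

open Filter Topology Metric
open Pool.Agent.H18TB

variable {X Z : Type} [MetricSpace X] [MetricSpace Z] {k : ℕ}

/-- A midpoint-affine, continuous function on `[0, ∞)` is affine. -/
private theorem pb_affine {g : ℝ → ℝ} (hc : ∀ T : ℝ, ContinuousOn g (Set.Icc 0 T))
    (hm : ∀ s t : ℝ, 0 ≤ s → 0 ≤ t → g ((s + t) / 2) = (g s + g t) / 2) {t : ℝ} (ht : 0 ≤ t) :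
    g t = g 0 + t * (g 1 - g 0) := by
  have key : ∀ T s : ℝ, 0 ≤ s → s ≤ T → T * g s = (T - s) * g 0 + s * g T := by
    intro T s hs hsT
    have h1 := convex_of_mid (f := g) (a := 0) (b := T) (hc T)
      (fun a ha b hb => (hm a b ha.1 hb.1).le) (t := s) ⟨hs, hsT⟩
    have h2 := convex_of_mid (f := fun x => -g x) (a := 0) (b := T) (hc T).neg
      (fun a ha b hb => by
        have h3 := hm a b ha.1 hb.1
        show -g ((a + b) / 2) ≤ (-g a + -g b) / 2
        rw [h3]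
        linarith) (t := s) ⟨hs, hsT⟩
    simp only [sub_zero] at h1 h2
    linarith
  rcases le_total t 1 with h | h
  · have h1 := key 1 t ht h
    linarith
  · have h1 := key t 1 zero_le_one h
    linarith

/-- The components of a ray of a product region are affine.  Proof.  For `s, t ≥ 0` let `m` be a
midpoint of `z s` and `z t`; by `IsProductMap.mid` and `IsAff.mid` (`IsRay.isAff`) both
`Ψ ((1 / 2) • (x s + x t)) m` and `Ψ (x ((s + t) / 2)) (z ((s + t) / 2))` are midpoints of the same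
points, so by `IsMid.unique` and injectivity of `Ψ` `x ((s + t) / 2) = (1 / 2) • (x s + x t)`.  `x`
is continuous (`dist (x s) (x t) ≤ |s - t|` on `[0, ∞)`), hence affine: `x t = x 0 + t • v` with
`v = x 1 - x 0` (prove it for dyadic multiples, or apply `convex_of_mid` to `t ↦ ⟪e, x t⟫` and to
`t ↦ -⟪e, x t⟫` for every `e`).  `‖v‖ ≤ 1` from `dist (x 0) (x 1) ≤ 1`, and
`dist (z s) (z t) ^ 2 = (s - t) ^ 2 - ‖v‖ ^ 2 * (s - t) ^ 2`. -/
theorem product_ray (hX : IsCAT0 X) (hZ : IsCAT0 Z) {Ψ : Euc k → Z → X} (hΨ : IsProductMap Ψ)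
    {x : ℝ → Euc k} {z : ℝ → Z} (h : IsRay (fun t => Ψ (x t) (z t))) :
    ∃ v : Euc k, ‖v‖ ≤ 1 ∧ (∀ t : ℝ, 0 ≤ t → x t = x 0 + t • v) ∧
      ∀ s t : ℝ, 0 ≤ s → 0 ≤ t → dist (z s) (z t) = Real.sqrt (1 - ‖v‖ ^ 2) * |s - t| := by
  have hmid : ∀ s t : ℝ, 0 ≤ s → 0 ≤ t → x ((s + t) / 2) = (1 / 2 : ℝ) • (x s + x t) := by
    intro s t hs ht
    obtain ⟨m, hm⟩ := exists_mid hZ (z s) (z t)
    have h1 := hΨ.mid (x s) (x t) hm
    have h2 := (h.isAff (max s t)).mid (s := s) (t := t) ⟨hs, le_max_left _ _⟩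
      ⟨ht, le_max_right _ _⟩
    have h3 := IsMid.unique hX h2 h1
    have h4 := hΨ.dist_fst_le (x ((s + t) / 2)) ((1 / 2 : ℝ) • (x s + x t)) (z ((s + t) / 2)) m
    rw [h3, dist_self] at h4
    exact dist_eq_zero.1 (le_antisymm h4 dist_nonneg)
  have hxl : ∀ s t : ℝ, 0 ≤ s → 0 ≤ t → dist (x s) (x t) ≤ |s - t| := by
    intro s t hs ht
    have h1 := hΨ.dist_fst_le (x s) (x t) (z s) (z t)
    have h2 := h s t hs ht
    simp only at h2
    linarith
  have hxc : ∀ T : ℝ, ContinuousOn x (Set.Icc 0 T) := by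
    intro T
    have h1 : LipschitzOnWith 1 x (Set.Icc 0 T) := by
      refine LipschitzOnWith.of_dist_le_mul fun a ha b hb => ?_
      rw [NNReal.coe_one, one_mul, Real.dist_eq]
      exact hxl a b ha.1 hb.1
    exact h1.continuousOn
  have hlin : ∀ t : ℝ, 0 ≤ t → x t = x 0 + t • (x 1 - x 0) := by
    intro t ht
    refine ext_inner_left ℝ fun e => ?_
    have h1 := pb_affine (g := fun t => inner ℝ e (x t))
      (fun T => ContinuousOn.inner (𝕜 := ℝ) continuousOn_const (hxc T))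
      (fun s t hs ht => by
        show inner ℝ e (x ((s + t) / 2)) = (inner ℝ e (x s) + inner ℝ e (x t)) / 2
        rw [hmid s t hs ht, inner_smul_right, inner_add_right]
        ring) ht
    rw [h1, inner_add_right, inner_smul_right, inner_sub_right]
  refine ⟨x 1 - x 0, ?_, hlin, ?_⟩
  · have h1 := hxl 1 0 zero_le_one le_rfl
    rw [dist_eq_norm, sub_zero, abs_one] at h1
    exact h1
  · intro s t hs ht
    have h1 := hΨ (x s) (x t) (z s) (z t)
    have h2 := h s t hs ht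
    simp only at h2
    rw [h2, hlin s hs, hlin t ht, dist_add_left, dist_eq_norm, ← sub_smul, norm_smul, mul_pow,
      Real.norm_eq_abs] at h1
    set v := x 1 - x 0 with hv
    have hv1 : ‖v‖ ≤ 1 := by
      have h3 := hxl 1 0 zero_le_one le_rfl
      rw [dist_eq_norm, sub_zero, abs_one] at h3
      exact h3
    have h4 : 0 ≤ 1 - ‖v‖ ^ 2 := by
      have h5 : ‖v‖ ^ 2 ≤ 1 := pow_le_one₀ (norm_nonneg _) hv1
      linarith
    have h6 : dist (z s) (z t) ^ 2 = (Real.sqrt (1 - ‖v‖ ^ 2) * |s - t|) ^ 2 := by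
      rw [mul_pow, Real.sq_sqrt h4]
      linarith
    exact (pow_left_inj₀ dist_nonneg (by positivity) two_ne_zero).1 h6

/-- A ray of the region from given data. -/
theorem region_ray {Ψ : Euc k → Z → X} (hΨ : IsProductMap Ψ) {v : Euc k} (hv : ‖v‖ ≤ 1)
    {ζ : ℝ → Z} (hζ : IsRay ζ) (a : Euc k) :
    IsRay (fun t => Ψ (a + t • v) (ζ (Real.sqrt (1 - ‖v‖ ^ 2) * t))) := by
  intro s t hs ht
  have h4 : 0 ≤ 1 - ‖v‖ ^ 2 := by
    have h5 : ‖v‖ ^ 2 ≤ 1 := pow_le_one₀ (norm_nonneg _) hv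
    linarith
  set κ := Real.sqrt (1 - ‖v‖ ^ 2) with hκ
  have hκ0 : 0 ≤ κ := Real.sqrt_nonneg _
  have h1 := hΨ (a + s • v) (a + t • v) (ζ (κ * s)) (ζ (κ * t))
  have h2 := hζ (κ * s) (κ * t) (by positivity) (by positivity)
  have hκ2 : κ ^ 2 = 1 - ‖v‖ ^ 2 := Real.sq_sqrt h4
  rw [dist_add_left, dist_eq_norm, ← sub_smul, norm_smul, Real.norm_eq_abs, h2, ← mul_sub,
    abs_mul, abs_of_nonneg hκ0, mul_pow, mul_pow, hκ2] at h1
  have h3 : dist (Ψ (a + s • v) (ζ (κ * s))) (Ψ (a + t • v) (ζ (κ * t))) ^ 2 = |s - t| ^ 2 := by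
    rw [h1]
    ring
  exact (pow_left_inj₀ dist_nonneg (abs_nonneg _) two_ne_zero).1 h3

end Pool.Agent.H18TC
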