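import Pool.Agent.Lib.H18TC.PA
import Pool.Agent.Lib.H18TB.AR

/-!
# PC: rays near a product region
-/

set_option autoImplicit false

namespace Pool.Agent.H18TC

open Filter Topology Metric
open Pool.Agent.H18TB

variable {X Z : Type} [MetricSpace X] [MetricSpace Z] {k : ℕ}

/-- A ray at bounded distance from the region is asymptotic to a ray of the region from any given point
of the region.  Proof: as `ray_near_flat` (`Lib/H18TB/C1.lean`): let `r` be the ray from `Ψ x₀ z₀`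
asymptotic to `c` (`exists_asymptotic_ray`); `infDist (r t) (region Ψ)` is bounded on `[0, ∞)` and `0` at
`0`, so it vanishes (`ray_infDist_growth` with `ε = 0`, `region_midClosed`), and `region_nearest` gives
`r t = Ψ (x t) (z t)`; redefine `x`, `z` at `0` (or note `r 0 = Ψ x₀ z₀` and `Ψ` is injective). -/
theorem ray_near_region [ProperSpace X] [CompleteSpace Z] (hX : IsCAT0 X) (hZ : IsCAT0 Z)
    {Ψ : Euc k → Z → X} (hΨ : IsProductMap Ψ) {c : ℝ → X} (hc : IsRay c) {M : ℝ}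
    (h : ∀ t : ℝ, 0 ≤ t → infDist (c t) (region Ψ) ≤ M) (x₀ : Euc k) (z₀ : Z) :
    ∃ (x : ℝ → Euc k) (z : ℝ → Z), IsRay (fun t => Ψ (x t) (z t)) ∧ x 0 = x₀ ∧ z 0 = z₀ ∧
      ∀ t : ℝ, 0 ≤ t → dist (c t) (Ψ (x t) (z t)) ≤ dist (c 0) (Ψ x₀ z₀) := by
  classical
  obtain ⟨r, hr, hr0, hrc⟩ := exists_asymptotic_ray hX hc (Ψ x₀ z₀)
  have hne : (region Ψ).Nonempty := ⟨Ψ x₀ z₀, x₀, z₀, rfl⟩
  have hNZ : Nonempty Z := ⟨z₀⟩
  have hA : ∀ t : ℝ, 0 ≤ t →
      infDist (r t) (region Ψ) ≤ (M + dist (Ψ x₀ z₀) (c 0)) + 0 * t := by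
    intro t ht
    have h1 : infDist (r t) (region Ψ) ≤ infDist (c t) (region Ψ) + dist (r t) (c t) :=
      infDist_le_infDist_add_dist
    have h2 := h t ht
    have h3 := hrc t ht
    linarith
  have hzero : ∀ t : ℝ, 0 ≤ t → infDist (r t) (region Ψ) = 0 := by
    intro t ht
    have h1 := ray_infDist_growth hX (region_midClosed hX hZ hΨ) hne hr hA ht
    have h2 : infDist (r 0) (region Ψ) = 0 := by
      rw [hr0]
      exact infDist_zero_of_mem ⟨x₀, z₀, rfl⟩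
    rw [h2] at h1
    have h3 : 0 ≤ infDist (r t) (region Ψ) := infDist_nonneg
    linarith
  have hex : ∀ t : ℝ, ∃ p : Euc k × Z, (0 ≤ t → r t = Ψ p.1 p.2) ∧ (t = 0 → p = (x₀, z₀)) := by
    intro t
    by_cases h0 : t = 0
    · refine ⟨(x₀, z₀), fun _ => ?_, fun _ => rfl⟩
      rw [h0, hr0]
    · obtain ⟨x, z, hx⟩ := region_nearest hΨ (r t)
      refine ⟨(x, z), fun ht => ?_, fun ht => absurd ht h0⟩
      rw [hzero t ht] at hx
      exact dist_eq_zero.1 hx
  choose p hp hp0 using hex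
  refine ⟨fun t => (p t).1, fun t => (p t).2, ?_, ?_, ?_, ?_⟩
  · intro s t hs ht
    show dist (Ψ (p s).1 (p s).2) (Ψ (p t).1 (p t).2) = |s - t|
    rw [← hp s hs, ← hp t ht]
    exact hr s t hs ht
  · show (p 0).1 = x₀
    rw [hp0 0 rfl]
  · show (p 0).2 = z₀
    rw [hp0 0 rfl]
  · intro t ht
    show dist (c t) (Ψ (p t).1 (p t).2) ≤ dist (c 0) (Ψ x₀ z₀)
    rw [← hp t ht, dist_comm, dist_comm (c 0)]
    exact hrc t ht

end Pool.Agent.H18TC
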