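import Pool.Agent.Lib.H18TC.PC

/-!
# PD: exit data for a product region
-/

set_option autoImplicit false

namespace Pool.Agent.H18TC

open Filter Topology Metric
open Pool.Agent.H18TB

variable {X Z : Type} [MetricSpace X] [MetricSpace Z] {k : ℕ}

/-- Exit data, recentred at the exit time.  Proof: as `exit_data` and `exit_data'`
(`Lib/H18TB/D1A.lean`, `D1B.lean`), with the region instead of the flat.  The negation of `RelInterior` with
`ε = 1 / (n + 1)` gives a ray `c` with `dist (c t) (Ψ (t • u) z₀) ≤ A + ε * t` which is not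
asymptotic to a ray of the region; let `r` be the ray from `Ψ 0 z₀` asymptotic to `c`; by `ray_growth`
`dist (r t) (Ψ (t • u) z₀) ≤ ε * t`.  `f t = infDist (r t) (region Ψ)` is continuous, `f 0 = 0`,
and not bounded by `M` on `[0, ∞)` by `ray_near_region`; so `f s = M` for some `s > 0`, and
`M ≤ s / (n + 1)`.  `infDist_convex` on `[0, s]` gives `f ≤ M` on `[0, s]`.  Let `Ψ x z` be the nearest
point of `r s` (`region_nearest`) and `L t = r (s + t)`.  For the last claim use `ray_growth` for `t ↦ r (s + t)` and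
`t ↦ Ψ (x + t • u) z`: `dist (Ψ (x + t • u) z) (Ψ ((s + t) • u) z₀) = dist (Ψ x z) (Ψ (s • u) z₀)`
(both squares are `dist x (s • u) ^ 2 + dist z z₀ ^ 2`), which is at most `M + s / (n + 1)`. -/
theorem rel_exit_data [ProperSpace X] [CompleteSpace Z] (hX : IsCAT0 X) (hZ : IsCAT0 Z)
    {Ψ : Euc k → Z → X} (hΨ : IsProductMap Ψ) {z₀ : Z} {u : Euc k} (hu : ‖u‖ = 1)
    (hnot : ¬ RelInterior Ψ z₀ u) {M : ℝ} (hM : 0 < M) (n : ℕ) :
    ∃ (L : ℝ → X) (s : ℝ) (x : Euc k) (z : Z), M * ((n : ℝ) + 1) ≤ s ∧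
      (∀ a b : ℝ, -s ≤ a → -s ≤ b → dist (L a) (L b) = |a - b|) ∧
      dist (L 0) (Ψ x z) = M ∧ (∀ (x' : Euc k) (z' : Z), M ≤ dist (L 0) (Ψ x' z')) ∧
      (∀ t : ℝ, -s ≤ t → t ≤ 0 → infDist (L t) (region Ψ) ≤ M) ∧
      ∀ t : ℝ, 0 ≤ t → dist (L t) (Ψ (x + t • u) z) ≤ M + t / ((n : ℝ) + 1) := by
  have hn : (0 : ℝ) < (n : ℝ) + 1 := by positivity
  have hε : (0 : ℝ) < 1 / ((n : ℝ) + 1) := by positivity
  have hZne : Nonempty Z := ⟨z₀⟩
  have hnot' : ¬ ∀ c : ℝ → X, IsRay c →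
      (∃ A : ℝ, ∀ t : ℝ, 0 ≤ t → dist (c t) (Ψ (t • u) z₀) ≤ A + 1 / ((n : ℝ) + 1) * t) →
      ∃ (x : ℝ → Euc k) (z : ℝ → Z), IsRay (fun t => Ψ (x t) (z t)) ∧
        ∃ D : ℝ, ∀ t : ℝ, 0 ≤ t → dist (c t) (Ψ (x t) (z t)) ≤ D :=
    fun h => hnot ⟨_, hε, h⟩
  obtain ⟨c, hc⟩ := not_forall.mp hnot'
  obtain ⟨hc, hc2⟩ := Classical.not_imp.mp hc
  obtain ⟨⟨A, hA⟩, hw⟩ := Classical.not_imp.mp hc2
  obtain ⟨r, hr, hr0, hrc⟩ := exists_asymptotic_ray hX hc (Ψ 0 z₀)
  have h1 : ∀ t : ℝ, 0 ≤ t → dist (r t) (Ψ (t • u) z₀) ≤ t / ((n : ℝ) + 1) := by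
    intro t ht
    have h2 := ray_growth hX hr (hΨ.line0 hu z₀).isRay (A := dist (Ψ 0 z₀) (c 0) + A)
      (ε := 1 / ((n : ℝ) + 1)) (fun s hs => by
        have h3 := dist_triangle (r s) (c s) (Ψ (s • u) z₀)
        have h4 := hrc s hs
        have h5 := hA s hs
        show dist (r s) (Ψ (s • u) z₀) ≤ _
        linarith) ht
    have h6 : dist (r 0) (Ψ ((0 : ℝ) • u) z₀) = 0 := by rw [hr0, zero_smul, dist_self]
    have h7 : dist (r t) (Ψ (t • u) z₀) ≤
        dist (r 0) (Ψ ((0 : ℝ) • u) z₀) + 1 / ((n : ℝ) + 1) * t := h2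
    rw [h6, zero_add, one_div_mul_eq_div] at h7
    exact h7
  have hne : (region Ψ).Nonempty := ⟨Ψ 0 z₀, 0, z₀, rfl⟩
  have hf0 : infDist (r 0) (region Ψ) = 0 := by
    rw [hr0]
    exact infDist_zero_of_mem ⟨0, z₀, rfl⟩
  have hunb : ∃ T : ℝ, 0 ≤ T ∧ M < infDist (r T) (region Ψ) := by
    by_contra hcon
    have hcon' : ∀ T : ℝ, 0 ≤ T → infDist (r T) (region Ψ) ≤ M := fun T hT => by
      by_contra hlt
      exact hcon ⟨T, hT, not_le.mp hlt⟩
    obtain ⟨x, z, hxz, _, _, hd⟩ := ray_near_region hX hZ hΨ hr hcon' 0 z₀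
    refine hw ⟨x, z, hxz, dist (Ψ 0 z₀) (c 0) + dist (r 0) (Ψ 0 z₀), fun t ht => ?_⟩
    have h3 := dist_triangle (c t) (r t) (Ψ (x t) (z t))
    have h4 := hrc t ht
    have h5 := hd t ht
    rw [dist_comm (r t) (c t)] at h4
    linarith
  obtain ⟨T, hT0, hT⟩ := hunb
  have hrcont : ContinuousOn r (Set.Icc 0 T) := by
    rw [Metric.continuousOn_iff]
    intro b hb δ hδ
    refine ⟨δ, hδ, fun a ha hab => ?_⟩
    rw [hr a b ha.1 hb.1]
    exact hab
  have hfcont : ContinuousOn (fun t => infDist (r t) (region Ψ)) (Set.Icc 0 T) :=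
    (continuous_infDist_pt (region Ψ)).comp_continuousOn hrcont
  obtain ⟨s, hs, hfs⟩ := intermediate_value_Icc hT0 hfcont
    (show M ∈ Set.Icc (infDist (r 0) (region Ψ)) (infDist (r T) (region Ψ)) from
      ⟨by rw [hf0]; exact hM.le, hT.le⟩)
  have hfs' : infDist (r s) (region Ψ) = M := hfs
  have hMs : M * ((n : ℝ) + 1) ≤ s := by
    have h2 : M ≤ s / ((n : ℝ) + 1) := by
      rw [← hfs']
      exact (infDist_le_dist_of_mem
        (show Ψ (s • u) z₀ ∈ region Ψ from ⟨s • u, z₀, rfl⟩)).trans (h1 s hs.1)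
    exact (le_div_iff₀ hn).mp h2
  have hspos : 0 < s := lt_of_lt_of_le (mul_pos hM hn) hMs
  obtain ⟨x, z, hx⟩ := region_nearest hΨ (r s)
  rw [hfs'] at hx
  have h5 : ∀ t : ℝ, 0 ≤ t → t ≤ s → infDist (r t) (region Ψ) ≤ M := by
    intro t ht hts
    have h2 := infDist_convex hX (region_midClosed hX hZ hΨ) hne (hr.isAff s) (t := t) ⟨ht, hts⟩
    rw [hf0, hfs', mul_zero, zero_add, sub_zero, sub_zero] at h2
    have h3 : s * infDist (r t) (region Ψ) ≤ s * M :=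
      h2.trans (mul_le_mul_of_nonneg_right hts hM.le)
    exact le_of_mul_le_mul_left h3 hspos
  have h7 : dist (Ψ x z) (Ψ (s • u) z₀) ≤ M + s / ((n : ℝ) + 1) := by
    have a1 := dist_triangle (Ψ x z) (r s) (Ψ (s • u) z₀)
    have a2 := h1 s hs.1
    rw [dist_comm (Ψ x z) (r s), hx] at a1
    linarith
  refine ⟨fun t => r (s + t), s, x, z, hMs, ?_, ?_, ?_, ?_, ?_⟩
  · intro a b ha hb
    have := hr (s + a) (s + b) (by linarith) (by linarith)
    show dist (r (s + a)) (r (s + b)) = _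
    rw [this, show s + a - (s + b) = a - b by ring]
  · show dist (r (s + 0)) (Ψ x z) = M
    rw [add_zero]; exact hx
  · intro x' z'
    show M ≤ dist (r (s + 0)) (Ψ x' z')
    rw [add_zero, ← hfs']
    exact infDist_le_dist_of_mem ⟨x', z', rfl⟩
  · intro t ht1 ht2
    exact h5 (s + t) (by linarith) (by linarith)
  · intro t ht
    have hc : IsRay (fun t => r (s + t)) := hr.shift hspos.le
    have hc' : IsRay (fun t : ℝ => Ψ (x + t • u) z) := (hΨ.line hu x z).isRay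
    have hb : ∀ t : ℝ, 0 ≤ t →
        dist ((fun t => r (s + t)) t) ((fun t : ℝ => Ψ (x + t • u) z) t) ≤
        (M + 2 * (s / ((n : ℝ) + 1))) + 1 / ((n : ℝ) + 1) * t := by
      intro t ht
      show dist (r (s + t)) (Ψ (x + t • u) z) ≤ _
      have a1 := dist_triangle (r (s + t)) (Ψ ((s + t) • u) z₀) (Ψ (x + t • u) z)
      have a2 := h1 (s + t) (by linarith)
      have a3 : dist (Ψ ((s + t) • u) z₀) (Ψ (x + t • u) z) ≤ M + s / ((n : ℝ) + 1) := by
        have e1 : dist (Ψ ((s + t) • u) z₀) (Ψ (x + t • u) z) =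
            dist (Ψ x z) (Ψ (s • u) z₀) := by
          have e2 := hΨ ((s + t) • u) (x + t • u) z₀ z
          have e3 := hΨ x (s • u) z z₀
          have e4 : dist ((s + t) • u) (x + t • u) = dist x (s • u) := by
            rw [add_smul, dist_add_right, dist_comm]
          rw [e4, dist_comm z₀ z, ← e3] at e2
          exact (pow_left_inj₀ dist_nonneg dist_nonneg two_ne_zero).1 e2
        rw [e1]
        exact h7
      have a4 : (s + t) / ((n : ℝ) + 1) = s / ((n : ℝ) + 1) + 1 / ((n : ℝ) + 1) * t := by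
        ring
      linarith
    have h8 := ray_growth hX hc hc' hb ht
    have h9 : dist ((fun t => r (s + t)) 0) ((fun t : ℝ => Ψ (x + t • u) z) 0) = M := by
      show dist (r (s + 0)) (Ψ (x + (0 : ℝ) • u) z) = M
      rw [add_zero, zero_smul, add_zero]; exact hx
    rw [h9] at h8
    show dist (r (s + t)) (Ψ (x + t • u) z) ≤ _
    have h10 : t / ((n : ℝ) + 1) = 1 / ((n : ℝ) + 1) * t := by ring
    rw [h10]
    exact h8

end Pool.Agent.H18TC
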