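import Pool.Agent.Lib.H18TC.PD

/-!
# PE: the limit of the exit data of a product region
-/

set_option autoImplicit false

namespace Pool.Agent.H18TC

open Filter Topology Metric
open Pool.Agent.H18TB

variable {X Z : Type} [MetricSpace X] [MetricSpace Z] {k : ℕ}

private theorem PE_infDist_smul_le {G : Type} [Group G] [MulAction G X]
    (hiso : ∀ (g : G) (x y : X), dist (g • x) (g • y) = dist x y)
    {Ψ : Euc k → Z → X} [Nonempty Z] {g : G} {w : Euc k} {τ : Z ≃ᵢ Z}
    (hg : ∀ (x' : Euc k) (z' : Z), g • Ψ x' z' = Ψ (x' + w) (τ z')) (p : X) :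
    infDist (g • p) (region Ψ) ≤ infDist p (region Ψ) := by
  have hne : (region Ψ).Nonempty := ⟨Ψ 0 (Classical.arbitrary Z), 0, Classical.arbitrary Z, rfl⟩
  refine (le_infDist hne).2 ?_
  rintro q ⟨x', z', rfl⟩
  have h1 : infDist (g • p) (region Ψ) ≤ dist (g • p) (g • Ψ x' z') :=
    infDist_le_dist_of_mem ⟨x' + w, τ z', (hg x' z').symm⟩
  rwa [hiso] at h1

/-- Proof: as `exit_limit` (`Lib/H18TB/D2.lean`), but simpler.  Take the data `L n`, `s n`, `x n`, `z n` of
`rel_exit_data` and `g n`, `w n`, `τ n` from `RegionCocompactWith` for the point `(x n, z n)`; put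
`a n = x n + w n` (`‖a n‖ ≤ R`), `b n = τ n (z n)` (`dist (b n) z₀ ≤ R`).  Pass to a subsequence with
`a n → a`, `b n → b` (`Euc k` and `Z` are proper, `proper_factor`) and, by `arzela` (`T = ℝ`, the maps
`t ↦ g n • L n t` are eventually `1`-Lipschitz for each pair since `s n → ∞`), `g n • L n t → L t` for
every `t`.  `g n` preserves the region in both directions (`τ n` is surjective), so
`infDist (g n • p) (region Ψ) = infDist p (region Ψ)` and `M ≤ dist (g n • L n 0) (Ψ x' z')`.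
For `t ≥ 0`, `dist (g n • L n t) (Ψ (a n + t • u) (b n)) ≤ M + t / (n + 1)`.  `infDist` is continuous, so the
last claim passes to the limit. -/
theorem rel_exit_limit [ProperSpace X] [CompleteSpace Z] (hX : IsCAT0 X) (hZ : IsCAT0 Z)
    {G : Type} [Group G] [MulAction G X]
    (hiso : ∀ (g : G) (x y : X), dist (g • x) (g • y) = dist x y)
    {Ψ : Euc k → Z → X} (hΨ : IsProductMap Ψ) {z₀ : Z} {R : ℝ}
    (hco : RegionCocompactWith G Ψ z₀ R) {u : Euc k} (hu : ‖u‖ = 1)
    (hnot : ¬ RelInterior Ψ z₀ u) {M : ℝ} (hM : 0 < M) :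
    ∃ (L : ℝ → X) (a : Euc k) (b : Z), ‖a‖ ≤ R ∧ dist b z₀ ≤ R ∧ IsLine L ∧
      dist (L 0) (Ψ a b) = M ∧ (∀ (x : Euc k) (z : Z), M ≤ dist (L 0) (Ψ x z)) ∧
      (∀ t : ℝ, 0 ≤ t → dist (L t) (Ψ (a + t • u) b) ≤ M) ∧
      ∀ t : ℝ, t ≤ 0 → infDist (L t) (region Ψ) ≤ M := by
  classical
  have : ProperSpace Z := proper_factor hΨ
  have : Nonempty Z := ⟨z₀⟩
  choose L s x z hs hL h0 hfar hneg hpos using fun n => rel_exit_data hX hZ hΨ hu hnot hM n
  choose g w τ hg hgx hgz using fun n => hco (x n) (z n)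
  have hs_top : Tendsto s atTop atTop := by
    have h1 : Tendsto (fun n : ℕ => M * ((n : ℝ) + 1)) atTop atTop :=
      Tendsto.const_mul_atTop hM (tendsto_atTop_add_const_right _ _ tendsto_natCast_atTop_atTop)
    exact tendsto_atTop_mono hs h1
  -- the shape of the translates
  have hgt : ∀ (n : ℕ) (t : ℝ), g n • Ψ (x n + t • u) (z n) =
      Ψ ((x n + w n) + t • u) (τ n (z n)) := by
    intro n t
    rw [hg n]
    congr 1
    abel
  have hg0 : ∀ n : ℕ, g n • Ψ (x n) (z n) = Ψ (x n + w n) (τ n (z n)) := fun n => hg n _ _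
  -- first extraction
  have hcomp : IsCompact ((closedBall (0 : Euc k) R) ×ˢ (closedBall z₀ R)) :=
    (isCompact_closedBall _ _).prod (isCompact_closedBall _ _)
  obtain ⟨⟨a, b⟩, hab, φ1, hφ1, hlim⟩ := hcomp.tendsto_subseq
    (x := fun n => (x n + w n, τ n (z n))) (fun n => by
      refine Set.mk_mem_prod ?_ ?_
      · rw [mem_closedBall, dist_zero_right]
        exact hgx n
      · rw [mem_closedBall]
        exact hgz n)
  have ha : ‖a‖ ≤ R := by
    have := hab.1
    rwa [mem_closedBall, dist_zero_right] at this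
  have hb : dist b z₀ ≤ R := by
    have := hab.2
    rwa [mem_closedBall] at this
  have hlima : Tendsto (fun n => x (φ1 n) + w (φ1 n)) atTop (𝓝 a) :=
    (continuous_fst.tendsto _).comp hlim
  have hlimb : Tendsto (fun n => τ (φ1 n) (z (φ1 n))) atTop (𝓝 b) :=
    (continuous_snd.tendsto _).comp hlim
  have hs1 : Tendsto (fun n => s (φ1 n)) atTop atTop := hs_top.comp hφ1.tendsto_atTop
  -- second extraction
  obtain ⟨φ2, hφ2, Li, hLi⟩ := arzela (T := ℝ) (X := X) (fun n t => g (φ1 n) • L (φ1 n) t) (Ψ 0 z₀)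
    (by
      intro t
      refine ⟨|t| + M + (R + R), ?_⟩
      filter_upwards [hs1.eventually_ge_atTop (|t|)] with n hn
      have hst : -s (φ1 n) ≤ t := by linarith [neg_abs_le t]
      have hs0 : -s (φ1 n) ≤ 0 := by linarith [abs_nonneg t]
      have h1 : dist (g (φ1 n) • L (φ1 n) t) (g (φ1 n) • L (φ1 n) 0) = |t| := by
        rw [hiso, hL _ _ _ hst hs0, sub_zero]
      have h2 : dist (g (φ1 n) • L (φ1 n) 0) (g (φ1 n) • Ψ (x (φ1 n)) (z (φ1 n))) = M := by
        rw [hiso, h0]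
      have h3 := dist_triangle4 (g (φ1 n) • L (φ1 n) t) (g (φ1 n) • L (φ1 n) 0)
        (g (φ1 n) • Ψ (x (φ1 n)) (z (φ1 n))) (Ψ 0 z₀)
      rw [h1, h2, hg0] at h3
      have h4 := hΨ.dist_le (x (φ1 n) + w (φ1 n)) 0 (τ (φ1 n) (z (φ1 n))) z₀
      rw [dist_zero_right] at h4
      linarith [hgx (φ1 n), hgz (φ1 n)])
    (by
      intro a' b'
      filter_upwards [hs1.eventually_ge_atTop (|a'|), hs1.eventually_ge_atTop (|b'|)] with n hn hn'
      have ha' : -s (φ1 n) ≤ a' := by linarith [neg_abs_le a']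
      have hb' : -s (φ1 n) ≤ b' := by linarith [neg_abs_le b']
      rw [hiso, hL _ _ _ ha' hb', Real.dist_eq])
  -- the composed subsequence
  set ψ : ℕ → ℕ := fun n => φ1 (φ2 n) with hψdef
  have hψ : StrictMono ψ := hφ1.comp hφ2
  have hψt : Tendsto ψ atTop atTop := hψ.tendsto_atTop
  have hLi' : ∀ t, Tendsto (fun n => g (ψ n) • L (ψ n) t) atTop (𝓝 (Li t)) := fun t => hLi t
  have hsψ : Tendsto (fun n => s (ψ n)) atTop atTop := hs_top.comp hψt
  have hΨlim : ∀ t : ℝ, Tendsto (fun n => Ψ ((x (ψ n) + w (ψ n)) + t • u) (τ (ψ n) (z (ψ n)))) atTop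
      (𝓝 (Ψ (a + t • u) b)) := by
    intro t
    rw [tendsto_iff_dist_tendsto_zero]
    have h1 : Tendsto (fun n => dist (x (ψ n) + w (ψ n)) a + dist (τ (ψ n) (z (ψ n))) b) atTop
        (𝓝 (0 + 0)) := by
      refine Tendsto.add ?_ ?_
      · exact (tendsto_iff_dist_tendsto_zero.1 hlima).comp hφ2.tendsto_atTop
      · exact (tendsto_iff_dist_tendsto_zero.1 hlimb).comp hφ2.tendsto_atTop
    rw [add_zero] at h1
    refine squeeze_zero (fun n => dist_nonneg) (fun n => ?_) h1
    refine (hΨ.dist_le _ _ _ _).trans ?_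
    rw [dist_add_right]
  have hΨlim0 : Tendsto (fun n => Ψ (x (ψ n) + w (ψ n)) (τ (ψ n) (z (ψ n)))) atTop
      (𝓝 (Ψ a b)) := by
    have h1 := hΨlim 0
    simpa using h1
  refine ⟨Li, a, b, ha, hb, ?_, ?_, ?_, ?_, ?_⟩
  · intro a' b'
    have h1 := (hLi' a').dist (hLi' b')
    have h2 : Tendsto (fun n => dist (g (ψ n) • L (ψ n) a') (g (ψ n) • L (ψ n) b')) atTop
        (𝓝 (|a' - b'|)) := by
      refine tendsto_const_nhds.congr' ?_
      filter_upwards [hsψ.eventually_ge_atTop (|a'|), hsψ.eventually_ge_atTop (|b'|)] with n hn hn'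
      have ha' : -s (ψ n) ≤ a' := by linarith [neg_abs_le a']
      have hb' : -s (ψ n) ≤ b' := by linarith [neg_abs_le b']
      rw [hiso, hL _ _ _ ha' hb']
    exact tendsto_nhds_unique h1 h2
  · have h1 := (hLi' 0).dist hΨlim0
    have h2 : (fun n => dist (g (ψ n) • L (ψ n) 0) (Ψ (x (ψ n) + w (ψ n)) (τ (ψ n) (z (ψ n))))) =
        fun _ => M := by
      funext n
      rw [← hg0, hiso, h0]
    rw [h2] at h1
    exact tendsto_nhds_unique h1 tendsto_const_nhds
  · intro x' z'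
    refine ge_of_tendsto ((hLi' 0).dist (tendsto_const_nhds (x := Ψ x' z')))
      (Eventually.of_forall fun n => ?_)
    have h1 : g (ψ n) • Ψ (x' - w (ψ n)) ((τ (ψ n)).symm z') = Ψ x' z' := by
      rw [hg, sub_add_cancel, IsometryEquiv.apply_symm_apply]
    rw [← h1, hiso]
    exact hfar _ _ _
  · intro t ht
    have h1 := (hLi' t).dist (hΨlim t)
    have h2 : Tendsto (fun n => M + t / (((ψ n : ℕ) : ℝ) + 1)) atTop (𝓝 (M + 0)) := by
      refine tendsto_const_nhds.add ?_
      refine Tendsto.div_atTop tendsto_const_nhds ?_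
      exact tendsto_atTop_add_const_right _ _ (tendsto_natCast_atTop_atTop.comp hψt)
    have h3 := le_of_tendsto_of_tendsto h1 h2 (Eventually.of_forall fun n => by
      show dist (g (ψ n) • L (ψ n) t) (Ψ ((x (ψ n) + w (ψ n)) + t • u) (τ (ψ n) (z (ψ n)))) ≤
        M + t / (((ψ n : ℕ) : ℝ) + 1)
      rw [← hgt, hiso]
      exact hpos _ _ ht)
    simpa using h3
  · intro t ht
    have h1 : Tendsto (fun n => infDist (g (ψ n) • L (ψ n) t) (region Ψ)) atTop
        (𝓝 (infDist (Li t) (region Ψ))) :=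
      ((continuous_infDist_pt (region Ψ)).tendsto _).comp (hLi' t)
    refine le_of_tendsto h1 ?_
    filter_upwards [hsψ.eventually_ge_atTop (|t|)] with n hn
    have hst : -s (ψ n) ≤ t := by linarith [neg_abs_le t]
    exact (PE_infDist_smul_le hiso (hg (ψ n)) _).trans (hneg _ _ hst ht)

end Pool.Agent.H18TC
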