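import Pool.Agent.Lib.H18TC.PB
import Pool.Agent.Lib.H18TC.PC

/-!
# PF: a line which is forward close to a line of the region and backward close to the region
-/

set_option autoImplicit false

namespace Pool.Agent.H18TC

open Filter Topology Metric
open Pool.Agent.H18TB

variable {X Z : Type} [MetricSpace X] [MetricSpace Z] {k : ℕ}

/-- Proof.  Apply `ray_near_region` to the ray `t ↦ L (-t)` and the point `(a, b)`: a ray
`t ↦ Ψ (x t) (z t)` of the region, `x 0 = a`, `z 0 = b`, with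
`dist (L (-t)) (Ψ (x t) (z t)) ≤ D₀` for `t ≥ 0`.  By `product_ray` `x t = a + t • v`, `‖v‖ ≤ 1`, and
`dist (z t) b = √(1 - ‖v‖ ^ 2) * t`.  For `t ≥ 0`,
`2 * t = dist (L t) (L (-t)) ≤ M + dist (Ψ (a + t • u) b) (Ψ (x t) (z t)) + D₀` and the square of the
middle term is `t ^ 2 * (‖u - v‖ ^ 2 + 1 - ‖v‖ ^ 2) = t ^ 2 * (2 - 2 * ⟪u, v⟫)`.  Letting `t → ∞`,
`2 - 2 * ⟪u, v⟫ ≥ 4`, so `⟪u, v⟫ ≤ -1`, and `‖u + v‖ ^ 2 = 1 + 2 * ⟪u, v⟫ + ‖v‖ ^ 2 ≤ 0`: `v = -u`,
`z t = b`.  So `dist (L t) (Ψ (a + t • u) b) ≤ max M D₀` for all `t`. -/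
theorem rel_line_parallel [ProperSpace X] [CompleteSpace Z] (hX : IsCAT0 X) (hZ : IsCAT0 Z)
    {Ψ : Euc k → Z → X} (hΨ : IsProductMap Ψ) {u : Euc k} (hu : ‖u‖ = 1) {a : Euc k} {b : Z}
    {L : ℝ → X} (hL : IsLine L) {M : ℝ}
    (hf : ∀ t : ℝ, 0 ≤ t → dist (L t) (Ψ (a + t • u) b) ≤ M)
    (hb : ∀ t : ℝ, t ≤ 0 → infDist (L t) (region Ψ) ≤ M) :
    ∃ D : ℝ, ∀ t : ℝ, dist (L t) (Ψ (a + t • u) b) ≤ D := by
  have hc : IsRay (fun t : ℝ => L (-t)) := by
    intro s t _ _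
    show dist (L (-s)) (L (-t)) = |s - t|
    rw [hL, abs_sub_comm s t]
    congr 1
    ring
  obtain ⟨x, z, hr, hx0, hz0, hd⟩ := ray_near_region hX hZ hΨ hc (M := M)
    (fun t ht => hb (-t) (by linarith)) a b
  obtain ⟨v, hv, hx, hz⟩ := product_ray hX hZ hΨ hr
  set D₀ : ℝ := dist (L (-0)) (Ψ a b) with hD₀
  have hz' : ∀ t : ℝ, 0 ≤ t → dist b (z t) = Real.sqrt (1 - ‖v‖ ^ 2) * t := by
    intro t ht
    have h := hz 0 t le_rfl ht
    rw [hz0, zero_sub, abs_neg, abs_of_nonneg ht] at h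
    exact h
  have hv2 : 0 ≤ 1 - ‖v‖ ^ 2 := by nlinarith [norm_nonneg v]
  have huv : ‖u - v‖ ^ 2 = 1 - 2 * inner ℝ u v + ‖v‖ ^ 2 := by
    rw [norm_sub_sq_real, hu]
    ring
  have huv' : ‖u + v‖ ^ 2 = 1 + 2 * inner ℝ u v + ‖v‖ ^ 2 := by
    rw [norm_add_sq_real, hu]
    ring
  have hpos : 0 ≤ 2 - 2 * inner ℝ u v := by nlinarith [sq_nonneg ‖u - v‖]
  have hmid : ∀ t : ℝ, 0 ≤ t → dist (Ψ (a + t • u) b) (Ψ (x t) (z t)) =
      Real.sqrt (2 - 2 * inner ℝ u v) * t := by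
    intro t ht
    have h := hΨ (a + t • u) (x t) b (z t)
    rw [hz' t ht, hx t ht, hx0] at h
    have h1 : dist (a + t • u) (a + t • v) = t * ‖u - v‖ := by
      rw [dist_eq_norm]
      have e : a + t • u - (a + t • v) = t • (u - v) := by
        rw [smul_sub]
        abel
      rw [e, norm_smul, Real.norm_of_nonneg ht]
    rw [h1, mul_pow, mul_pow, Real.sq_sqrt hv2, huv] at h
    rw [hx t ht, hx0]
    refine (pow_left_inj₀ dist_nonneg (mul_nonneg (Real.sqrt_nonneg _) ht) two_ne_zero).1 ?_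
    rw [h, mul_pow, Real.sq_sqrt hpos]
    ring
  have hbig : ∀ t : ℝ, 0 ≤ t → 2 * t ≤ M + Real.sqrt (2 - 2 * inner ℝ u v) * t + D₀ := by
    intro t ht
    have h1 : dist (L t) (L (-t)) = 2 * t := by
      rw [hL]
      have e : t - -t = 2 * t := by ring
      rw [e, abs_of_nonneg (by linarith)]
    have h2 := dist_triangle (L t) (Ψ (a + t • u) b) (L (-t))
    have h3 := dist_triangle (Ψ (a + t • u) b) (Ψ (x t) (z t)) (L (-t))
    have h4 := hf t ht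
    have h5 : dist (L (-t)) (Ψ (x t) (z t)) ≤ D₀ := hd t ht
    rw [dist_comm] at h5
    rw [hmid t ht] at h3
    linarith
  have hk : 2 ≤ Real.sqrt (2 - 2 * inner ℝ u v) := by
    by_contra hlt
    have hlt' : 0 < 2 - Real.sqrt (2 - 2 * inner ℝ u v) := by linarith [not_le.mp hlt]
    have hMD : 0 ≤ M + D₀ := by
      have := hbig 0 le_rfl
      linarith
    have h1 := hbig ((M + D₀ + 1) / (2 - Real.sqrt (2 - 2 * inner ℝ u v)))
      (div_nonneg (by linarith) hlt'.le)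
    have h2 : (2 - Real.sqrt (2 - 2 * inner ℝ u v)) *
        ((M + D₀ + 1) / (2 - Real.sqrt (2 - 2 * inner ℝ u v))) = M + D₀ + 1 :=
      mul_div_cancel₀ _ hlt'.ne'
    linarith
  have hk2 : inner ℝ u v ≤ -1 := by
    have h1 : Real.sqrt (2 - 2 * inner ℝ u v) ^ 2 = 2 - 2 * inner ℝ u v := Real.sq_sqrt hpos
    nlinarith
  have hsum : ‖u + v‖ ^ 2 ≤ 0 := by
    rw [huv']
    linarith
  have hnorm : ‖u + v‖ = 0 := by
    have := sq_nonneg ‖u + v‖
    exact pow_eq_zero_iff two_ne_zero |>.mp (le_antisymm hsum this)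
  have hvu : v = -u := by
    have := norm_eq_zero.mp hnorm
    exact (neg_eq_of_add_eq_zero_right this).symm
  have hv1 : ‖v‖ = 1 := by rw [hvu, norm_neg, hu]
  refine ⟨max M D₀, fun t => ?_⟩
  rcases le_total 0 t with ht | ht
  · exact (hf t ht).trans (le_max_left _ _)
  · have hs : 0 ≤ -t := by linarith
    have h1 : dist (L (- -t)) (Ψ (x (-t)) (z (-t))) ≤ D₀ := hd (-t) hs
    have h2 : z (-t) = b := by
      have h3 := hz' (-t) hs
      rw [hv1, one_pow, sub_self, Real.sqrt_zero, zero_mul] at h3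
      exact (dist_eq_zero.mp h3).symm
    have h4 : x (-t) = a + t • u := by
      rw [hx (-t) hs, hx0, hvu, smul_neg, neg_smul, neg_neg]
    rw [h2, h4, neg_neg] at h1
    exact h1.trans (le_max_right _ _)

end Pool.Agent.H18TC
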