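import Pool.Agent.Lib.H18TC.PE
import Pool.Agent.Lib.H18TC.PF

/-!
# PG: far lines of a product region
-/

set_option autoImplicit false

namespace Pool.Agent.H18TC

open Filter Topology Metric
open Pool.Agent.H18TB

variable {X Z : Type} [MetricSpace X] [MetricSpace Z] {k : ℕ}

/-- Proof: `rel_exit_limit`, `rel_line_parallel`; the distance of `L t` from `Ψ (a + t • u) b` is constant
(`line_dist_const`, `IsProductMap.line`), equal to `M` at `0`; `infDist (L t) (region Ψ)` is constant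
(`line_infDist_const`, `region_midClosed`), and at least `M` at `0`. -/
theorem rel_farLine [ProperSpace X] [CompleteSpace Z] (hX : IsCAT0 X) (hZ : IsCAT0 Z)
    {G : Type} [Group G] [MulAction G X]
    (hiso : ∀ (g : G) (x y : X), dist (g • x) (g • y) = dist x y)
    {Ψ : Euc k → Z → X} (hΨ : IsProductMap Ψ) {z₀ : Z} {R : ℝ}
    (hco : RegionCocompactWith G Ψ z₀ R) {u : Euc k} (hu : ‖u‖ = 1)
    (hnot : ¬ RelInterior Ψ z₀ u) {M : ℝ} (hM : 0 < M) :
    ∃ (L : ℝ → X) (a : Euc k) (b : Z), VFar Ψ M u L a b ∧ ‖a‖ ≤ R ∧ dist b z₀ ≤ R := by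
  obtain ⟨L, a, b, ha, hb, hL, h0, h1, h2, h3⟩ := rel_exit_limit hX hZ hiso hΨ hco hu hnot hM
  obtain ⟨D, hD⟩ := rel_line_parallel hX hZ hΨ hu hL h2 h3
  refine ⟨L, a, b, ⟨fun s t => ?_, fun t => ?_, fun t x z => ?_⟩, ha, hb⟩
  · rw [hL s t, hu, one_mul]
  · have h4 := line_dist_const hX hL (hΨ.line hu a b) hD t 0
    have h5 : dist (L t) (Ψ (a + t • u) b) = dist (L 0) (Ψ (a + (0 : ℝ) • u) b) := h4
    rw [h5, zero_smul, add_zero, h0]
  · have hne : (region Ψ).Nonempty := ⟨Ψ a b, a, b, rfl⟩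
    have hbd : ∀ s : ℝ, infDist (L s) (region Ψ) ≤ D := fun s =>
      (infDist_le_dist_of_mem (show Ψ (a + s • u) b ∈ region Ψ from ⟨_, _, rfl⟩)).trans (hD s)
    have h4 := line_infDist_const hX (region_midClosed hX hZ hΨ) hne hL hbd t 0
    have h5 : M ≤ infDist (L 0) (region Ψ) := by
      rw [le_infDist hne]
      rintro y ⟨x', z', rfl⟩
      exact h1 x' z'
    rw [← h4] at h5
    exact h5.trans (infDist_le_dist_of_mem ⟨x, z, rfl⟩)

theorem VFar.scale {Ψ : Euc k → Z → X} {M : ℝ} {v : Euc k} {L : ℝ → X} {a : Euc k} {b : Z}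
    (h : VFar Ψ M v L a b) {l : ℝ} (hl : 0 ≤ l) : VFar Ψ M (l • v) (fun t => L (l * t)) a b := by
  refine ⟨fun s t => ?_, fun t => ?_, fun t x z => h.2.2 (l * t) x z⟩
  · have h1 := h.1 (l * s) (l * t)
    rw [norm_smul, Real.norm_of_nonneg hl]
    rw [← mul_sub, abs_mul, abs_of_nonneg hl] at h1
    exact h1.trans (by ring)
  · have h1 := h.2.1 (l * t)
    rw [smul_smul, mul_comm t l]
    exact h1

end Pool.Agent.H18TC
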