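import Pool.Agent.Lib.H18TC.PA
import Pool.Agent.Lib.H18TC.AA

/-!
# PH: growth and limits of far lines
-/

set_option autoImplicit false

namespace Pool.Agent.H18TC

open Filter Topology Metric
open Pool.Agent.H18TB

variable {X Z : Type} [MetricSpace X] [MetricSpace Z] {k : ℕ}

/-- Growth of the distance of two far lines.  Proof: `growth` for `t ↦ dist (L t) (L' t)`, which is
convex by `dist_convex` (`IsAff` with speeds `‖v‖` and `‖v'‖`), bounded by `A + ‖v - v'‖ * t` with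
`A = 2 * M + dist (Ψ a b) (Ψ a' b')`: `dist (Ψ (a + t • v) b) (Ψ (a' + t • v') b') ≤
dist (Ψ (a + t • v) b) (Ψ (a + t • v') b) + dist (Ψ (a + t • v') b) (Ψ (a' + t • v') b')`. -/
theorem VFar.dist_le (hX : IsCAT0 X) {Ψ : Euc k → Z → X} (hΨ : IsProductMap Ψ) {M : ℝ}
    {v v' : Euc k} {L L' : ℝ → X} {a a' : Euc k} {b b' : Z} (h : VFar Ψ M v L a b)
    (h' : VFar Ψ M v' L' a' b') {t : ℝ} (ht : 0 ≤ t) :
    dist (L t) (L' t) ≤ dist (L 0) (L' 0) + ‖v - v'‖ * t := by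
  refine growth (g := fun t => dist (L t) (L' t)) (A := 2 * M + dist a a' + dist b b')
    (fun T s hs hsT => ?_) (fun s hs => ?_) ht
  · have h1 : IsAff L 0 T ‖v‖ := fun x _ y _ => h.1 x y
    have h2 : IsAff L' 0 T ‖v'‖ := fun x _ y _ => h'.1 x y
    have h3 := dist_convex hX h1 h2 (t := s) ⟨hs, hsT⟩
    rw [sub_zero, sub_zero] at h3
    exact h3
  · have h1 := h.2.1 s
    have h2 := h'.2.1 s
    have h3 : dist (L s) (L' s) ≤ dist (L s) (Ψ (a + s • v) b) +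
        dist (Ψ (a + s • v) b) (Ψ (a' + s • v') b') + dist (Ψ (a' + s • v') b') (L' s) :=
      dist_triangle4 _ _ _ _
    rw [dist_comm (Ψ (a' + s • v') b') (L' s), h1, h2] at h3
    have h4 := hΨ.dist_le (a + s • v) (a' + s • v') b b'
    have h5 : dist (a + s • v) (a' + s • v') ≤ dist a a' + ‖v - v'‖ * s := by
      have h6 := dist_add_add_le a (s • v) a' (s • v')
      have h7 : dist (s • v) (s • v') = ‖v - v'‖ * s := by
        rw [dist_eq_norm, ← smul_sub, norm_smul, Real.norm_of_nonneg hs, mul_comm]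
      rw [h7] at h6
      exact h6
    linarith

private theorem ph_tendsto {Ψ : Euc k → Z → X} (hΨ : IsProductMap Ψ) {xn : ℕ → Euc k} {x : Euc k}
    {zn : ℕ → Z} {z : Z} (hx : Tendsto xn atTop (𝓝 x)) (hz : Tendsto zn atTop (𝓝 z)) :
    Tendsto (fun n => Ψ (xn n) (zn n)) atTop (𝓝 (Ψ x z)) := by
  rw [tendsto_iff_dist_tendsto_zero] at hx hz ⊢
  have h0 := hx.add hz
  rw [add_zero] at h0
  exact squeeze_zero (fun n => dist_nonneg) (fun n => hΨ.dist_le _ _ _ _) h0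

/-- Far lines pass to limits.  Proof.  The points `an n` and `bn n` are bounded, the maps `Ln n` are
pointwise bounded (`dist (Ln n t) (Ψ (an n + t • vn n) (bn n)) = M`) and `K`-Lipschitz with `K` a bound for
`‖vn n‖`; pass to a subsequence with `an n → a`, `bn n → b` and, by `arzela_lip`, `Ln n t → L t` for
every `t`. -/
theorem VFar.limit [ProperSpace X] [CompleteSpace Z] {Ψ : Euc k → Z → X} (hΨ : IsProductMap Ψ)
    {M R : ℝ} {z₀ : Z} {vn : ℕ → Euc k} {Ln : ℕ → ℝ → X} {an : ℕ → Euc k} {bn : ℕ → Z}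
    (h : ∀ n : ℕ, VFar Ψ M (vn n) (Ln n) (an n) (bn n)) {v : Euc k}
    (hv : Tendsto vn atTop (𝓝 v)) (ha : ∀ n : ℕ, ‖an n‖ ≤ R) (hb : ∀ n : ℕ, dist (bn n) z₀ ≤ R) :
    ∃ (L : ℝ → X) (a : Euc k) (b : Z), VFar Ψ M v L a b ∧ ∃ φ : ℕ → ℕ, StrictMono φ ∧
      Tendsto (fun n => an (φ n)) atTop (𝓝 a) ∧ Tendsto (fun n => bn (φ n)) atTop (𝓝 b) ∧
      Tendsto (fun n => Ln (φ n) 0) atTop (𝓝 (L 0)) := by
  have : ProperSpace Z := proper_factor hΨ
  have hcomp : IsCompact (closedBall (0 : Euc k) R ×ˢ closedBall z₀ R) :=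
    (isCompact_closedBall _ _).prod (isCompact_closedBall _ _)
  obtain ⟨ab, -, φ, hφ, hφab⟩ := hcomp.tendsto_subseq (x := fun n => (an n, bn n))
    (fun n => ⟨mem_closedBall_zero_iff.2 (ha n), mem_closedBall.2 (hb n)⟩)
  obtain ⟨a, b⟩ := ab
  have hφa : Tendsto (fun n => an (φ n)) atTop (𝓝 a) := (Prod.tendsto_iff _ _).1 hφab |>.1
  have hφb : Tendsto (fun n => bn (φ n)) atTop (𝓝 b) := (Prod.tendsto_iff _ _).1 hφab |>.2
  have hφv : Tendsto (fun n => vn (φ n)) atTop (𝓝 v) := hv.comp hφ.tendsto_atTop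
  have hnorm : ∀ᶠ n in atTop, ‖vn (φ n)‖ ≤ ‖v‖ + 1 := by
    filter_upwards [hφv.norm.eventually (gt_mem_nhds (show ‖v‖ < ‖v‖ + 1 by linarith))] with n hn
    exact hn.le
  obtain ⟨ψ, hψ, L, hL⟩ := arzela_lip (T := ℝ) (‖v‖ + 1) (fun n t => Ln (φ n) t) (Ψ 0 z₀)
    (fun t => by
      refine ⟨M + (R + |t| * (‖v‖ + 1) + R), ?_⟩
      filter_upwards [hnorm] with n hn
      have h1 := (h (φ n)).2.1 t
      have h2 : dist (Ln (φ n) t) (Ψ 0 z₀) ≤ dist (Ln (φ n) t) (Ψ (an (φ n) + t • vn (φ n)) (bn (φ n))) +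
          dist (Ψ (an (φ n) + t • vn (φ n)) (bn (φ n))) (Ψ 0 z₀) := dist_triangle _ _ _
      have h3 := hΨ.dist_le (an (φ n) + t • vn (φ n)) 0 (bn (φ n)) z₀
      have h4 : dist (an (φ n) + t • vn (φ n)) 0 ≤ R + |t| * (‖v‖ + 1) := by
        rw [dist_zero_right]
        refine (norm_add_le _ _).trans (add_le_add (ha _) ?_)
        rw [norm_smul, Real.norm_eq_abs]
        exact mul_le_mul_of_nonneg_left hn (abs_nonneg _)
      have h5 := hb (φ n)
      linarith)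
    (fun s t ε hε => by
      filter_upwards [hnorm] with n hn
      have h1 := (h (φ n)).1 s t
      rw [h1, Real.dist_eq]
      have h2 := mul_le_mul_of_nonneg_right hn (abs_nonneg (s - t))
      linarith)
  have hψa : Tendsto (fun n => an (φ (ψ n))) atTop (𝓝 a) := hφa.comp hψ.tendsto_atTop
  have hψb : Tendsto (fun n => bn (φ (ψ n))) atTop (𝓝 b) := hφb.comp hψ.tendsto_atTop
  have hψv : Tendsto (fun n => vn (φ (ψ n))) atTop (𝓝 v) := hφv.comp hψ.tendsto_atTop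
  refine ⟨L, a, b, ⟨fun s t => ?_, fun t => ?_, fun t x z => ?_⟩, fun n => φ (ψ n),
    hφ.comp hψ, hψa, hψb, hL 0⟩
  · have h1 : Tendsto (fun n => dist (Ln (φ (ψ n)) s) (Ln (φ (ψ n)) t)) atTop (𝓝 (dist (L s) (L t))) :=
      (hL s).dist (hL t)
    have h2 : Tendsto (fun n => ‖vn (φ (ψ n))‖ * |s - t|) atTop (𝓝 (‖v‖ * |s - t|)) :=
      hψv.norm.mul_const _
    refine tendsto_nhds_unique h1 (h2.congr fun n => ?_)
    exact ((h (φ (ψ n))).1 s t).symm
  · have h1 : Tendsto (fun n => Ψ (an (φ (ψ n)) + t • vn (φ (ψ n))) (bn (φ (ψ n)))) atTop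
        (𝓝 (Ψ (a + t • v) b)) := ph_tendsto hΨ (hψa.add (hψv.const_smul t)) hψb
    have h2 : Tendsto (fun n => dist (Ln (φ (ψ n)) t)
        (Ψ (an (φ (ψ n)) + t • vn (φ (ψ n))) (bn (φ (ψ n))))) atTop
        (𝓝 (dist (L t) (Ψ (a + t • v) b))) := (hL t).dist h1
    refine tendsto_nhds_unique h2 (tendsto_const_nhds.congr fun n => ?_)
    exact ((h (φ (ψ n))).2.1 t).symm
  · have h1 : Tendsto (fun n => dist (Ln (φ (ψ n)) t) (Ψ x z)) atTop (𝓝 (dist (L t) (Ψ x z))) :=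
      (hL t).dist tendsto_const_nhds
    exact ge_of_tendsto' h1 fun n => (h (φ (ψ n))).2.2 t x z

end Pool.Agent.H18TC
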