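import Pool.Agent.Lib.H18TB.M1

/-!
# PJ: the nearest point projection to a midpoint closed set is 1-Lipschitz
-/

set_option autoImplicit false

namespace Pool.Agent.H18TC

open Filter Topology Metric
open Pool.Agent.H18TB

variable {X : Type} [MetricSpace X]

/-- The inequality of Pythagoras at a nearest point.  Proof.  Put `q 0 = q`, `q (m + 1)` a midpoint of
`p` and `q m` (`exists_mid`), in `S` by `MidClosed`; `dist p (q m) = dist p q / 2 ^ m`.  Let
`e m = dist x (q m) ^ 2 - dist x p ^ 2 ≥ 0`.  `IsMid.cn` gives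
`e (m + 1) ≤ e m / 2 - dist p (q m) ^ 2 / 4`, so by induction
`e 0 ≥ 2 ^ m * e m + dist p q ^ 2 * (1 - 1 / 2 ^ m)`; let `m → ∞`. -/
theorem pythagoras (hX : IsCAT0 X) {S : Set X} (hS : MidClosed S) {x p q : X} (hp : p ∈ S)
    (hq : q ∈ S) (hmin : ∀ s ∈ S, dist x p ≤ dist x s) :
    dist x p ^ 2 + dist p q ^ 2 ≤ dist x q ^ 2 := by
  have key : ∀ m : ℕ, ∀ r ∈ S, dist x p ^ 2 + dist p r ^ 2 * (1 - (1 / 2) ^ m) ≤ dist x r ^ 2 := by
    intro m
    induction m with
    | zero =>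
      intro r hr
      have h1 : dist x p ^ 2 ≤ dist x r ^ 2 := pow_le_pow_left₀ dist_nonneg (hmin r hr) 2
      simpa using h1
    | succ m ih =>
      intro r hr
      obtain ⟨s, hs⟩ := exists_mid hX p r
      have hsS : s ∈ S := hS p hp r hr s hs
      have h1 := ih s hsS
      have h2 := hs.cn hX x
      rw [hs.1] at h1
      have h5 : (1 / 2 : ℝ) ^ (m + 1) = (1 / 2) ^ m * (1 / 2) := pow_succ _ _
      rw [h5]
      nlinarith
  have hlim : Tendsto (fun m : ℕ => dist x p ^ 2 + dist p q ^ 2 * (1 - (1 / 2 : ℝ) ^ m)) atTop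
      (𝓝 (dist x p ^ 2 + dist p q ^ 2 * (1 - 0))) := by
    have h0 : Tendsto (fun m : ℕ => (1 / 2 : ℝ) ^ m) atTop (𝓝 0) :=
      tendsto_pow_atTop_nhds_zero_of_lt_one (by norm_num) (by norm_num)
    exact tendsto_const_nhds.add (tendsto_const_nhds.mul (tendsto_const_nhds.sub h0))
  have h3 := le_of_tendsto hlim (Eventually.of_forall fun m => key m q hq)
  rwa [sub_zero, mul_one] at h3

/-- Proof: `pythagoras` for `x, p, q` and for `y, q, p`, and `enflo x y q p`:
`dist x q ^ 2 + dist y p ^ 2 ≤ dist x y ^ 2 + dist y q ^ 2 + dist q p ^ 2 + dist p x ^ 2`. -/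
theorem proj_lipschitz (hX : IsCAT0 X) {S : Set X} (hS : MidClosed S) {x y p q : X} (hp : p ∈ S)
    (hq : q ∈ S) (hpmin : ∀ s ∈ S, dist x p ≤ dist x s) (hqmin : ∀ s ∈ S, dist y q ≤ dist y s) :
    dist p q ≤ dist x y := by
  have h1 := pythagoras hX hS hp hq hpmin
  have h2 := pythagoras hX hS hq hp hqmin
  have h3 := enflo hX x y q p
  rw [dist_comm q p] at h2 h3
  rw [dist_comm p x] at h3
  have h4 : dist p q ^ 2 ≤ dist x y ^ 2 := by linarith
  exact le_of_sq_le_sq h4 dist_nonneg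

end Pool.Agent.H18TC
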