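import Pool.Agent.Lib.H18TC.PMA

/-!
# PM: far lines in all directions of an open set start close to each other on a smaller open set
-/

set_option autoImplicit false

namespace Pool.Agent.H18TC

open Filter Topology Metric
open Pool.Agent.H18TB

variable {X Z : Type} [MetricSpace X] [MetricSpace Z] {k : ℕ}

/-- Proof.  All starting points `(L 0, a, b)` lie in the compact set of triples with
`dist p (Ψ 0 z₀) ≤ |M| + 2 * R` (for `p = L 0`), `‖a‖ ≤ R`, `dist b z₀ ≤ R` (`X`, `Euc k` and `Z` are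
proper); cover it by finitely many balls of radius `δ` centred at points `(p i, a i, b i)` of this
set (`IsCompact.finite_cover_balls`), let `C i` be the closed set of `isClosed_velocities`, and apply
`exists_ball_of_finite_cover`. -/
theorem common_start [ProperSpace X] [CompleteSpace Z] {Ψ : Euc k → Z → X}
    (hΨ : IsProductMap Ψ) {M R : ℝ} {z₀ : Z} {O : Set (Euc k)} (hO : IsOpen O)
    (hne : O.Nonempty)
    (h : ∀ v ∈ O, ∃ (L : ℝ → X) (a : Euc k) (b : Z), VFar Ψ M v L a b ∧ ‖a‖ ≤ R ∧ dist b z₀ ≤ R)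
    {δ : ℝ} (hδ : 0 < δ) :
    ∃ (v₁ : Euc k) (ρ : ℝ) (p : X) (a₁ : Euc k) (b₁ : Z), 0 < ρ ∧ ball v₁ ρ ⊆ O ∧
      ∀ v ∈ ball v₁ ρ, ∃ (L : ℝ → X) (a : Euc k) (b : Z), VFar Ψ M v L a b ∧
        dist (L 0) p ≤ δ ∧ dist a a₁ ≤ δ ∧ dist b b₁ ≤ δ := by
  classical
  have : ProperSpace Z := proper_factor hΨ
  obtain ⟨t, -, htf, hcov⟩ := ((isCompact_closedBall (Ψ 0 z₀) (M + 2 * R)).prod
    ((isCompact_closedBall (0 : Euc k) R).prod (isCompact_closedBall z₀ R))).finite_cover_balls hδ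
  have hfin : Finite t := htf
  obtain ⟨i, v₁, ρ, hρ, h1, h2⟩ := exists_ball_of_finite_cover (ι := t) hO hne
    (C := fun i => {v : Euc k | ∃ (L : ℝ → X) (a : Euc k) (b : Z), VFar Ψ M v L a b ∧ ‖a‖ ≤ R ∧
      dist b z₀ ≤ R ∧ dist (L 0) i.1.1 ≤ δ ∧ dist a i.1.2.1 ≤ δ ∧ dist b i.1.2.2 ≤ δ})
    (fun i => isClosed_velocities hΨ M R δ z₀ i.1.1 i.1.2.1 i.1.2.2) (by
      intro v hv
      obtain ⟨L, a, b, hL, ha, hb⟩ := h v hv
      have h0 : dist (L 0) (Ψ a b) = M := by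
        have := hL.2.1 0
        rwa [zero_smul, add_zero] at this
      have h3 : dist (L 0) (Ψ 0 z₀) ≤ M + 2 * R := by
        have h4 := hΨ.dist_le a 0 b z₀
        rw [dist_zero_right] at h4
        have h5 := dist_triangle (L 0) (Ψ a b) (Ψ 0 z₀)
        linarith
      have hmem : (L 0, a, b) ∈ closedBall (Ψ 0 z₀) (M + 2 * R) ×ˢ
          (closedBall (0 : Euc k) R ×ˢ closedBall z₀ R) := by
        refine ⟨mem_closedBall.mpr h3, ?_, mem_closedBall.mpr hb⟩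
        rw [mem_closedBall, dist_zero_right]
        exact ha
      have h6 := hcov hmem
      rw [Set.mem_iUnion₂] at h6
      obtain ⟨q, hq, h7⟩ := h6
      rw [mem_ball, Prod.dist_eq, Prod.dist_eq] at h7
      have h8 := max_lt_iff.mp h7
      have h9 := max_lt_iff.mp h8.2
      exact Set.mem_iUnion.mpr ⟨⟨q, hq⟩, L, a, b, hL, ha, hb, h8.1.le, h9.1.le, h9.2.le⟩)
  refine ⟨v₁, ρ, i.1.1, i.1.2.1, i.1.2.2, hρ, h1, fun v hv => ?_⟩
  obtain ⟨L, a, b, hL, -, -, h3, h4, h5⟩ := h2 hv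
  exact ⟨L, a, b, hL, h3, h4, h5⟩

end Pool.Agent.H18TC
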