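import Pool.Agent.Lib.H18TC.PH

/-!
# PMA: closedness of the set of velocities; finite covers by closed sets
-/

set_option autoImplicit false

namespace Pool.Agent.H18TC

open Filter Topology Metric
open Pool.Agent.H18TB

variable {X Z : Type} [MetricSpace X] [MetricSpace Z] {k : ℕ}

/-- The set of velocities of far lines with starting data in a given closed set is closed.  Proof:
`VFar.limit` along a sequence `v n → v` (`IsSeqClosed`). -/
theorem isClosed_velocities [ProperSpace X] [CompleteSpace Z] {Ψ : Euc k → Z → X}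
    (hΨ : IsProductMap Ψ) (M R δ : ℝ) (z₀ : Z) (p : X) (a₁ : Euc k) (b₁ : Z) :
    IsClosed {v : Euc k | ∃ (L : ℝ → X) (a : Euc k) (b : Z), VFar Ψ M v L a b ∧ ‖a‖ ≤ R ∧
      dist b z₀ ≤ R ∧ dist (L 0) p ≤ δ ∧ dist a a₁ ≤ δ ∧ dist b b₁ ≤ δ} := by
  refine IsSeqClosed.isClosed ?_
  intro vn v hvn hv
  choose Ln an bn h1 h2 h3 h4 h5 h6 using hvn
  obtain ⟨L, a, b, hfar, φ, -, ha, hb, hL⟩ := VFar.limit hΨ h1 hv h2 h3
  refine ⟨L, a, b, hfar, ?_, ?_, ?_, ?_, ?_⟩
  · exact le_of_tendsto' ha.norm fun n => h2 (φ n)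
  · exact le_of_tendsto' (hb.dist tendsto_const_nhds) fun n => h3 (φ n)
  · exact le_of_tendsto' (hL.dist tendsto_const_nhds) fun n => h4 (φ n)
  · exact le_of_tendsto' (ha.dist tendsto_const_nhds) fun n => h5 (φ n)
  · exact le_of_tendsto' (hb.dist tendsto_const_nhds) fun n => h6 (φ n)

/-- An open nonempty set covered by finitely many closed sets contains a ball inside one of them.
Proof: induction on the number of sets (if `O` is not contained in `C i₀`, replace `O` by the open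
nonempty set `O \ C i₀`). -/
theorem exists_ball_of_finite_cover {ι E : Type} [Finite ι] [MetricSpace E] {O : Set E}
    (hO : IsOpen O) (hne : O.Nonempty) {C : ι → Set E} (hC : ∀ i, IsClosed (C i))
    (hcov : O ⊆ ⋃ i, C i) : ∃ (i : ι) (v : E) (ρ : ℝ), 0 < ρ ∧ ball v ρ ⊆ O ∧ ball v ρ ⊆ C i := by
  classical
  have : Fintype ι := Fintype.ofFinite ι
  have key : ∀ (s : Finset ι) (U : Set E), IsOpen U → U.Nonempty → U ⊆ ⋃ i ∈ s, C i →
      ∃ (i : ι) (v : E) (ρ : ℝ), 0 < ρ ∧ ball v ρ ⊆ U ∧ ball v ρ ⊆ C i := by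
    intro s
    induction s using Finset.induction_on with
    | empty =>
      intro U _ hUne hUcov
      obtain ⟨x, hx⟩ := hUne
      have := hUcov hx
      simp at this
    | insert i s _ ih =>
      intro U hU hUne hUcov
      by_cases h : U ⊆ C i
      · obtain ⟨x, hx⟩ := hUne
        obtain ⟨ρ, hρ, hball⟩ := Metric.isOpen_iff.mp hU x hx
        exact ⟨i, x, ρ, hρ, hball, hball.trans h⟩
      · obtain ⟨x, hx, hxC⟩ := Set.not_subset.mp h
        obtain ⟨j, v, ρ, hρ, h1, h2⟩ := ih (U \ C i) (hU.sdiff (hC i)) ⟨x, hx, hxC⟩ (by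
          rintro y ⟨hy, hyC⟩
          obtain ⟨j, hj, hyj⟩ := Set.mem_iUnion₂.mp (hUcov hy)
          rcases Finset.mem_insert.mp hj with rfl | hj
          · exact absurd hyj hyC
          · exact Set.mem_iUnion₂.mpr ⟨j, hj, hyj⟩)
        exact ⟨j, v, ρ, hρ, h1.trans Set.sdiff_subset, h2⟩
  refine key Finset.univ O hO hne fun x hx => ?_
  obtain ⟨i, hi⟩ := Set.mem_iUnion.mp (hcov hx)
  exact Set.mem_iUnion₂.mpr ⟨i, Finset.mem_univ i, hi⟩

end Pool.Agent.H18TC
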