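import Pool.Agent.Lib.H18TC.PNA
import Pool.Agent.Lib.H18TC.PJ

/-!
# PN: far lines in all directions of an open set give a far parallel flat
-/

set_option autoImplicit false

namespace Pool.Agent.H18TC

open Filter Topology Metric
open Pool.Agent.H18TB

variable {X Z : Type} [MetricSpace X] [MetricSpace Z] {k : ℕ}

/-- Proof.  Take `approx_flat` for `δ = 1 / (n + 1)`, `N = n + 1`; pass to a subsequence with `A n → A`,
`B n → B` and, by `arzela_lip` (`T = Euc k`, `K = 1`), `Φ n y → Φ y` for every `y`.  Then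
`dist (Φ y) (Φ y') ≤ ‖y - y'‖`, and `Ψ (A + y) B` is a nearest point of the region to `Φ y`, at
distance `M`; by `proj_lipschitz` (`region_midClosed`)
`‖y - y'‖ = dist (Ψ (A + y) B) (Ψ (A + y') B) ≤ dist (Φ y) (Φ y')`.  So `Φ` is an isometry; take
`j x = Φ (x - A)`, `D = M + dist B z₀`. -/
theorem exists_parallel_flat [ProperSpace X] [CompleteSpace Z] (hX : IsCAT0 X) (hZ : IsCAT0 Z)
    {G : Type} [Group G] [MulAction G X]
    (hiso : ∀ (g : G) (x y : X), dist (g • x) (g • y) = dist x y)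
    {Ψ : Euc k → Z → X} (hΨ : IsProductMap Ψ) {z₀ : Z} {R : ℝ}
    (hco : RegionCocompactWith G Ψ z₀ R) {M : ℝ} {O : Set (Euc k)} (hO : IsOpen O)
    (hne : O.Nonempty)
    (h : ∀ v ∈ O, ∃ (L : ℝ → X) (a : Euc k) (b : Z), VFar Ψ M v L a b ∧ ‖a‖ ≤ R ∧ dist b z₀ ≤ R) :
    ∃ j : Euc k → X, Isometry j ∧ (∃ D : ℝ, ∀ x : Euc k, dist (j x) (Ψ x z₀) ≤ D) ∧
      ∀ (x : Euc k) (z : Z), M ≤ dist (j 0) (Ψ x z) := by
  have key : ∀ n : ℕ, ∃ (Φ : Euc k → X) (A : Euc k) (B : Z), ‖A‖ ≤ R ∧ dist B z₀ ≤ R ∧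
      (∀ y y' : Euc k, ‖y‖ < (n : ℝ) + 1 → ‖y'‖ < (n : ℝ) + 1 →
        dist (Φ y) (Φ y') ≤ ‖y - y'‖ + 2 * (1 / ((n : ℝ) + 1))) ∧
      (∀ y : Euc k, ‖y‖ < (n : ℝ) + 1 →
        dist (Φ y) (Ψ (A + y) B) ≤ M + 2 * (1 / ((n : ℝ) + 1))) ∧
      ∀ y : Euc k, ‖y‖ < (n : ℝ) + 1 → ∀ (x : Euc k) (z : Z), M ≤ dist (Φ y) (Ψ x z) := by
    intro n
    have e1 : (0 : ℝ) < 1 / ((n : ℝ) + 1) := by positivity
    have e2 : (0 : ℝ) < (n : ℝ) + 1 := by positivity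
    exact approx_flat hX hiso hΨ hco hO hne h e1 e2
  choose Φ A B hA hB h1 h2 h3 using key
  have hPZ : ProperSpace Z := proper_factor hΨ
  -- subsequences
  obtain ⟨A₀, -, φ₁, hφ₁, hA₀⟩ := (isCompact_closedBall (0 : Euc k) R).tendsto_subseq
    (fun n => mem_closedBall_zero_iff.mpr (hA n))
  obtain ⟨B₀, -, φ₂, hφ₂, hB₀⟩ := (isCompact_closedBall z₀ R).tendsto_subseq
    (x := fun n => B (φ₁ n)) (fun n => mem_closedBall.mpr (hB (φ₁ n)))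
  have hδ : Tendsto (fun n : ℕ => 2 * (1 / ((n : ℝ) + 1))) atTop (𝓝 0) := by
    have := (tendsto_one_div_add_atTop_nhds_zero_nat (𝕜 := ℝ)).const_mul 2
    simpa using this
  have hbig : ∀ y : Euc k, ∀ᶠ n : ℕ in atTop, ‖y‖ < (n : ℝ) + 1 := by
    intro y
    obtain ⟨N, hN⟩ := exists_nat_gt ‖y‖
    filter_upwards [eventually_ge_atTop N] with n hn
    have : (N : ℝ) ≤ n := by exact_mod_cast hn
    linarith
  have hψ0 : Tendsto (fun n => φ₁ (φ₂ n)) atTop atTop :=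
    hφ₁.tendsto_atTop.comp hφ₂.tendsto_atTop
  obtain ⟨φ₃, hφ₃, F, hF⟩ := arzela_lip (T := Euc k) (X := X) 1
    (fun n y => Φ (φ₁ (φ₂ n)) y) (Ψ 0 z₀)
    (by
      intro y
      refine ⟨M + 2 + (R + ‖y‖) + R, ?_⟩
      filter_upwards [hψ0.eventually (hbig y)] with n hn
      have a1 := h2 (φ₁ (φ₂ n)) y hn
      have a2 := hΨ.dist_le (A (φ₁ (φ₂ n)) + y) 0 (B (φ₁ (φ₂ n))) z₀
      have a3 := dist_triangle (Φ (φ₁ (φ₂ n)) y) (Ψ (A (φ₁ (φ₂ n)) + y) (B (φ₁ (φ₂ n))))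
        (Ψ 0 z₀)
      have a4 : dist (A (φ₁ (φ₂ n)) + y) 0 ≤ R + ‖y‖ := by
        rw [dist_zero_right]
        exact (norm_add_le _ _).trans (by linarith [hA (φ₁ (φ₂ n))])
      have a5 := hB (φ₁ (φ₂ n))
      have a6 : 1 / (((φ₁ (φ₂ n) : ℕ) : ℝ) + 1) ≤ 1 := by
        rw [div_le_one (by positivity)]
        have : (0 : ℝ) ≤ ((φ₁ (φ₂ n) : ℕ) : ℝ) := Nat.cast_nonneg _
        linarith
      linarith)
    (by
      intro y y' ε hε
      filter_upwards [hψ0.eventually (hbig y), hψ0.eventually (hbig y'),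
        hψ0.eventually (hδ.eventually (gt_mem_nhds hε))] with n hn hn' hn''
      have a1 := h1 (φ₁ (φ₂ n)) y y' hn hn'
      rw [← dist_eq_norm] at a1
      rw [one_mul]
      linarith)
  have hψ : Tendsto (fun n => φ₁ (φ₂ (φ₃ n))) atTop atTop := hψ0.comp hφ₃.tendsto_atTop
  have hA1 : Tendsto (fun n => A (φ₁ (φ₂ (φ₃ n)))) atTop (𝓝 A₀) :=
    (hA₀.comp hφ₂.tendsto_atTop).comp hφ₃.tendsto_atTop
  have hB1 : Tendsto (fun n => B (φ₁ (φ₂ (φ₃ n)))) atTop (𝓝 B₀) := hB₀.comp hφ₃.tendsto_atTop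
  have hd1 : Tendsto (fun n => 2 * (1 / (((φ₁ (φ₂ (φ₃ n)) : ℕ) : ℝ) + 1))) atTop (𝓝 0) :=
    hδ.comp hψ
  have hF1 : ∀ y y' : Euc k, dist (F y) (F y') ≤ dist y y' := by
    intro y y'
    have l1 := (hF y).dist (hF y')
    have l2 : Tendsto (fun n => dist y y' + 2 * (1 / (((φ₁ (φ₂ (φ₃ n)) : ℕ) : ℝ) + 1))) atTop
        (𝓝 (dist y y' + 0)) := hd1.const_add _
    rw [add_zero] at l2
    refine le_of_tendsto_of_tendsto l1 l2 ?_
    filter_upwards [hψ.eventually (hbig y), hψ.eventually (hbig y')] with n hn hn'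
    have a1 := h1 (φ₁ (φ₂ (φ₃ n))) y y' hn hn'
    rw [← dist_eq_norm] at a1
    exact a1
  have hF2 : ∀ y : Euc k, dist (F y) (Ψ (A₀ + y) B₀) ≤ M := by
    intro y
    have l1 : Tendsto (fun n => dist (Φ (φ₁ (φ₂ (φ₃ n))) y) (Ψ (A₀ + y) B₀)) atTop
        (𝓝 (dist (F y) (Ψ (A₀ + y) B₀))) := (hF y).dist tendsto_const_nhds
    have l2 : Tendsto (fun n => M + 2 * (1 / (((φ₁ (φ₂ (φ₃ n)) : ℕ) : ℝ) + 1)) +
        (dist (A (φ₁ (φ₂ (φ₃ n)))) A₀ + dist (B (φ₁ (φ₂ (φ₃ n)))) B₀)) atTop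
        (𝓝 (M + 0 + (0 + 0))) :=
      (hd1.const_add M).add ((tendsto_iff_dist_tendsto_zero.mp hA1).add
        (tendsto_iff_dist_tendsto_zero.mp hB1))
    rw [add_zero, add_zero, add_zero] at l2
    refine le_of_tendsto_of_tendsto l1 l2 ?_
    filter_upwards [hψ.eventually (hbig y)] with n hn
    have a1 := h2 (φ₁ (φ₂ (φ₃ n))) y hn
    have a2 := hΨ.dist_le (A (φ₁ (φ₂ (φ₃ n))) + y) (A₀ + y) (B (φ₁ (φ₂ (φ₃ n)))) B₀
    rw [dist_add_right] at a2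
    have a3 := dist_triangle (Φ (φ₁ (φ₂ (φ₃ n))) y)
      (Ψ (A (φ₁ (φ₂ (φ₃ n))) + y) (B (φ₁ (φ₂ (φ₃ n))))) (Ψ (A₀ + y) B₀)
    linarith
  have hF3 : ∀ (y x : Euc k) (z : Z), M ≤ dist (F y) (Ψ x z) := by
    intro y x z
    have l1 : Tendsto (fun n => dist (Φ (φ₁ (φ₂ (φ₃ n))) y) (Ψ x z)) atTop
        (𝓝 (dist (F y) (Ψ x z))) := (hF y).dist tendsto_const_nhds
    refine ge_of_tendsto l1 ?_
    filter_upwards [hψ.eventually (hbig y)] with n hn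
    exact h3 (φ₁ (φ₂ (φ₃ n))) y hn x z
  have hFi : Isometry F := by
    refine Isometry.of_dist_eq fun y y' => le_antisymm (hF1 y y') ?_
    have a1 := proj_lipschitz hX (region_midClosed hX hZ hΨ) (x := F y) (y := F y')
      (p := Ψ (A₀ + y) B₀) (q := Ψ (A₀ + y') B₀) ⟨_, _, rfl⟩ ⟨_, _, rfl⟩
      (by
        rintro s ⟨x, z, rfl⟩
        exact (hF2 y).trans (hF3 y x z))
      (by
        rintro s ⟨x, z, rfl⟩
        exact (hF2 y').trans (hF3 y' x z))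
    have a2 : dist (Ψ (A₀ + y) B₀) (Ψ (A₀ + y') B₀) = dist y y' := by
      have := (hΨ.isometry_left B₀).dist_eq (A₀ + y) (A₀ + y')
      rw [dist_add_left] at this
      exact this
    rw [← a2]
    exact a1
  refine ⟨fun x => F (x - A₀), ?_, ⟨M + dist B₀ z₀, fun x => ?_⟩, fun x z => hF3 _ x z⟩
  · refine Isometry.of_dist_eq fun x y => ?_
    rw [hFi.dist_eq, dist_sub_right]
  · have a1 := hF2 (x - A₀)
    rw [add_sub_cancel] at a1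
    have a2 : dist (Ψ x B₀) (Ψ x z₀) = dist B₀ z₀ := (hΨ.isometry_right x).dist_eq B₀ z₀
    have a3 := dist_triangle (F (x - A₀)) (Ψ x B₀) (Ψ x z₀)
    linarith

end Pool.Agent.H18TC
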