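import Pool.Agent.Lib.H18TC.PM

/-!
# PNA: approximate far parallel flats
-/

set_option autoImplicit false

namespace Pool.Agent.H18TC

open Filter Topology Metric
open Pool.Agent.H18TB

variable {X Z : Type} [MetricSpace X] [MetricSpace Z] {k : ℕ}

/-- One approximate flat.  Proof.  Take `v₁`, `ρ`, `p`, `a₁`, `b₁` from `common_start` for `δ`,
and `t = N / ρ`.  For `‖y‖ < N` the velocity `v₁ + t⁻¹ • y` is in `ball v₁ ρ`; let `L y`, `a y`, `b y` be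
its far line.  Let `g`, `w`, `τ` be given by `RegionCocompactWith` for the point
`(a₁ + t • v₁, b₁)`, `A = a₁ + t • v₁ + w`, `B = τ b₁`, and `Φ y = g • L y t`
for `‖y‖ < N`, anything (for instance `Φ 0`) for other `y`.  By `VFar.dist_le`
`dist (Φ y) (Φ y') ≤ dist (L y 0) (L y' 0) + ‖t⁻¹ • (y - y')‖ * t ≤ 2 * δ + ‖y - y'‖`.  The foot of
`g • L y t` is `Ψ (a y + t • (v₁ + t⁻¹ • y) + w) (τ (b y)) = Ψ (a y - a₁ + A + y) (τ (b y))`, at
distance at most `2 * δ` from `Ψ (A + y) B`.  The last claim since `g` maps the region onto the region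
(`τ` is surjective). -/
theorem approx_flat [ProperSpace X] [CompleteSpace Z] (hX : IsCAT0 X)
    {G : Type} [Group G] [MulAction G X]
    (hiso : ∀ (g : G) (x y : X), dist (g • x) (g • y) = dist x y)
    {Ψ : Euc k → Z → X} (hΨ : IsProductMap Ψ) {z₀ : Z} {R : ℝ}
    (hco : RegionCocompactWith G Ψ z₀ R) {M : ℝ} {O : Set (Euc k)} (hO : IsOpen O)
    (hne : O.Nonempty)
    (h : ∀ v ∈ O, ∃ (L : ℝ → X) (a : Euc k) (b : Z), VFar Ψ M v L a b ∧ ‖a‖ ≤ R ∧ dist b z₀ ≤ R)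
    {δ N : ℝ} (hδ : 0 < δ) (hN : 0 < N) :
    ∃ (Φ : Euc k → X) (A : Euc k) (B : Z), ‖A‖ ≤ R ∧ dist B z₀ ≤ R ∧
      (∀ y y' : Euc k, ‖y‖ < N → ‖y'‖ < N → dist (Φ y) (Φ y') ≤ ‖y - y'‖ + 2 * δ) ∧
      (∀ y : Euc k, ‖y‖ < N → dist (Φ y) (Ψ (A + y) B) ≤ M + 2 * δ) ∧
      ∀ y : Euc k, ‖y‖ < N → ∀ (x : Euc k) (z : Z), M ≤ dist (Φ y) (Ψ x z) := by
  obtain ⟨v₁, ρ, p, a₁, b₁, hρ, -, hball⟩ := common_start hΨ hO hne h hδ
  set t : ℝ := N / ρ with ht
  have ht0 : 0 < t := div_pos hN hρ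
  have htN : t⁻¹ * N = ρ := by
    rw [ht]
    field_simp
  have hmem : ∀ y : Euc k, ‖y‖ < N → v₁ + t⁻¹ • y ∈ ball v₁ ρ := by
    intro y hy
    rw [mem_ball, dist_self_add_left, norm_smul, Real.norm_of_nonneg (inv_nonneg.2 ht0.le), ← htN]
    exact mul_lt_mul_of_pos_left hy (inv_pos.2 ht0)
  have hN0 : ‖(0 : Euc k)‖ < N := by
    rw [norm_zero]
    exact hN
  have key : ∀ y : Euc k, ∃ (L : ℝ → X) (a : Euc k) (b : Z), ‖y‖ < N →
      VFar Ψ M (v₁ + t⁻¹ • y) L a b ∧ dist (L 0) p ≤ δ ∧ dist a a₁ ≤ δ ∧ dist b b₁ ≤ δ := by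
    intro y
    by_cases hy : ‖y‖ < N
    · obtain ⟨L, a, b, h1⟩ := hball _ (hmem y hy)
      exact ⟨L, a, b, fun _ => h1⟩
    · obtain ⟨L, a, b, -⟩ := hball _ (hmem 0 hN0)
      exact ⟨L, a, b, fun h1 => absurd h1 hy⟩
  choose L a b hL using key
  obtain ⟨g, w, τ, hg, hA, hB⟩ := hco (a₁ + t • v₁) b₁
  refine ⟨fun y => g • L y t, a₁ + t • v₁ + w, τ b₁, hA, hB, ?_, ?_, ?_⟩
  · intro y y' hy hy'
    obtain ⟨h1, h2, -, -⟩ := hL y hy
    obtain ⟨h1', h2', -, -⟩ := hL y' hy'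
    have h3 := VFar.dist_le hX hΨ h1 h1' ht0.le
    have h4 : ‖(v₁ + t⁻¹ • y) - (v₁ + t⁻¹ • y')‖ * t = ‖y - y'‖ := by
      rw [add_sub_add_left_eq_sub, ← smul_sub, norm_smul,
        Real.norm_of_nonneg (inv_nonneg.2 ht0.le)]
      field_simp
    have h5 : dist (L y 0) (L y' 0) ≤ δ + δ :=
      (dist_triangle_right _ _ p).trans (add_le_add h2 h2')
    change dist (g • L y t) (g • L y' t) ≤ _
    rw [hiso]
    rw [h4] at h3
    linarith
  · intro y hy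
    obtain ⟨h1, -, h2, h3⟩ := hL y hy
    have h4 := h1.2.1 t
    have e1 : t • (v₁ + t⁻¹ • y) = t • v₁ + y := by
      rw [smul_add, smul_smul, mul_inv_cancel₀ ht0.ne', one_smul]
    rw [e1] at h4
    have h5 : dist (g • L y t) (Ψ (a y + (t • v₁ + y) + w) (τ (b y))) = M := by
      rw [← hg, hiso]
      exact h4
    have h6 : dist (Ψ (a y + (t • v₁ + y) + w) (τ (b y))) (Ψ (a₁ + t • v₁ + w + y) (τ b₁)) ≤
        δ + δ := by
      refine (hΨ.dist_le _ _ _ _).trans (add_le_add ?_ ?_)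
      · have e2 : a₁ + t • v₁ + w + y = a₁ + (t • v₁ + y + w) := by abel
        have e3 : a y + (t • v₁ + y) + w = a y + (t • v₁ + y + w) := by abel
        rw [e2, e3, dist_add_right]
        exact h2
      · rw [τ.dist_eq]
        exact h3
    change dist (g • L y t) _ ≤ _
    have h7 := dist_triangle (g • L y t) (Ψ (a y + (t • v₁ + y) + w) (τ (b y)))
      (Ψ (a₁ + t • v₁ + w + y) (τ b₁))
    linarith
  · intro y hy x z
    obtain ⟨h1, -, -, -⟩ := hL y hy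
    change M ≤ dist (g • L y t) _
    have e1 : Ψ x z = g • Ψ (x - w) (τ.symm z) := by
      rw [hg, sub_add_cancel, τ.apply_symm_apply]
    rw [e1, hiso]
    exact h1.2.2 t _ _

end Pool.Agent.H18TC
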