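import Pool.Agent.Lib.H18TC.PG
import Pool.Agent.Lib.H18TC.PN

/-!
# PO: interior directions are dense
-/

set_option autoImplicit false

namespace Pool.Agent.H18TC

open Filter Topology Metric
open Pool.Agent.H18TB

variable {X Z : Type} [MetricSpace X] [MetricSpace Z] {k : ℕ}

/-- Proof.  Let `R`, `C` be the constants of `RegionCocompact` and `ContainsParallelFlats`,
`M = |C| + 1`.  Suppose no unit vector `u'` with `‖u' - u‖ < ε` satisfies `RelInterior`.  Let `O` be the set of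
`v ≠ 0` with `‖‖v‖⁻¹ • v - u‖ < ε`, an open set containing `u`.  For `v ∈ O`, `rel_farLine` for
`‖v‖⁻¹ • v` and `VFar.scale` give a far line of velocity `v`.  By `exists_parallel_flat` there is a flat
`j` parallel to `x ↦ Ψ x z₀` with `M ≤ dist (j 0) (Ψ x z)` for all `x`, `z`, a contradiction to
`ContainsParallelFlats`. -/
theorem dense_relInterior [ProperSpace X] [CompleteSpace Z] (hX : IsCAT0 X) (hZ : IsCAT0 Z)
    {G : Type} [Group G] [MulAction G X]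
    (hiso : ∀ (g : G) (x y : X), dist (g • x) (g • y) = dist x y)
    {Ψ : Euc k → Z → X} (hΨ : IsProductMap Ψ) {z₀ : Z} (hco : RegionCocompact G Ψ z₀)
    (hP : ContainsParallelFlats Ψ z₀) {u : Euc k} (hu : ‖u‖ = 1) {ε : ℝ} (hε : 0 < ε) :
    ∃ u' : Euc k, ‖u'‖ = 1 ∧ ‖u' - u‖ < ε ∧ RelInterior Ψ z₀ u' := by
  obtain ⟨R, hR⟩ := hco
  obtain ⟨C, hC⟩ := hP
  by_contra hno
  have hno' : ∀ u' : Euc k, ‖u'‖ = 1 → ‖u' - u‖ < ε → ¬ RelInterior Ψ z₀ u' :=
    fun u' h1 h2 h3 => hno ⟨u', h1, h2, h3⟩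
  have hM : 0 < |C| + 1 := by positivity
  have hcont : ContinuousOn (fun v : Euc k => ‖‖v‖⁻¹ • v - u‖) {0}ᶜ := by
    have h1 : ContinuousOn (fun v : Euc k => ‖v‖⁻¹) {0}ᶜ :=
      ContinuousOn.inv₀ continuous_norm.continuousOn fun v hv => norm_ne_zero_iff.2 hv
    have h2 : ContinuousOn (fun v : Euc k => v) {0}ᶜ := continuousOn_id
    exact ((h1.smul h2).sub continuousOn_const).norm
  have hO : IsOpen ({0}ᶜ ∩ (fun v : Euc k => ‖‖v‖⁻¹ • v - u‖) ⁻¹' Set.Iio ε) :=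
    hcont.isOpen_inter_preimage isOpen_compl_singleton isOpen_Iio
  have hu0 : u ≠ 0 := by
    intro h
    rw [h, norm_zero] at hu
    exact zero_ne_one hu
  have hne : ({0}ᶜ ∩ (fun v : Euc k => ‖‖v‖⁻¹ • v - u‖) ⁻¹' Set.Iio ε).Nonempty := by
    refine ⟨u, hu0, ?_⟩
    show ‖‖u‖⁻¹ • u - u‖ < ε
    rw [hu, inv_one, one_smul, sub_self, norm_zero]
    exact hε
  obtain ⟨j, hj, hD, hfar⟩ := exists_parallel_flat hX hZ hiso hΨ hR hO hne (M := |C| + 1) (by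
    rintro v ⟨hv0, hv⟩
    have hv0' : v ≠ 0 := hv0
    have hn : ‖v‖ ≠ 0 := norm_ne_zero_iff.2 hv0'
    have h1 : ‖‖v‖⁻¹ • v‖ = 1 := by
      rw [norm_smul, norm_inv, norm_norm, inv_mul_cancel₀ hn]
    obtain ⟨L, a, b, hL, ha, hb⟩ := rel_farLine hX hZ hiso hΨ hR h1 (hno' _ h1 hv) hM
    refine ⟨fun t => L (‖v‖ * t), a, b, ?_, ha, hb⟩
    have h2 := hL.scale (norm_nonneg v)
    rw [smul_smul, mul_inv_cancel₀ hn, one_smul] at h2
    exact h2)
  obtain ⟨x, z, hxz⟩ := hC j hj hD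
  have h3 := hfar x z
  have h4 := le_abs_self C
  linarith

end Pool.Agent.H18TC
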