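import Pool.Agent.Lib.H18TC.PB
import Pool.Agent.Lib.H18TC.PC

/-!
# PR: rays near an interior direction of a product region, in coordinates
-/

set_option autoImplicit false

namespace Pool.Agent.H18TC

open Filter Topology Metric
open Pool.Agent.H18TB

variable {X Z : Type} [MetricSpace X] [MetricSpace Z] {k : ℕ}

/-- The standard ray of the region with velocity `v` in `Euc k` and direction `ζ` in `Z`. -/
noncomputable def stdRay (Ψ : Euc k → Z → X) (v : Euc k) (ζ : ℝ → Z) : ℝ → X :=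
  fun t => Ψ (t • v) (ζ (Real.sqrt (1 - ‖v‖ ^ 2) * t))

/-- Distance of two standard rays, from above.  Proof: `IsProductMap.dist_le`,
`dist (ζ (β * t)) (ζ' (β' * t)) ≤ dist (ζ (β * t)) (ζ' (β * t)) + |β - β'| * t`. -/
theorem stdRay_dist_le {Ψ : Euc k → Z → X} (hΨ : IsProductMap Ψ) {v v' : Euc k} {ζ ζ' : ℝ → Z}
    (hζ' : IsRay ζ') {t : ℝ} (ht : 0 ≤ t) :
    dist (stdRay Ψ v ζ t) (stdRay Ψ v' ζ' t) ≤ t * ‖v - v'‖ +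
      dist (ζ (Real.sqrt (1 - ‖v‖ ^ 2) * t)) (ζ' (Real.sqrt (1 - ‖v‖ ^ 2) * t)) +
      |Real.sqrt (1 - ‖v‖ ^ 2) - Real.sqrt (1 - ‖v'‖ ^ 2)| * t := by
  have h1 := hΨ.dist_le (t • v) (t • v') (ζ (Real.sqrt (1 - ‖v‖ ^ 2) * t))
    (ζ' (Real.sqrt (1 - ‖v'‖ ^ 2) * t))
  have h2 : dist (t • v) (t • v') = t * ‖v - v'‖ := by
    rw [dist_eq_norm, ← smul_sub, norm_smul, Real.norm_eq_abs, abs_of_nonneg ht]
  have h3 := dist_triangle (ζ (Real.sqrt (1 - ‖v‖ ^ 2) * t)) (ζ' (Real.sqrt (1 - ‖v‖ ^ 2) * t))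
    (ζ' (Real.sqrt (1 - ‖v'‖ ^ 2) * t))
  have h4 : dist (ζ' (Real.sqrt (1 - ‖v‖ ^ 2) * t)) (ζ' (Real.sqrt (1 - ‖v'‖ ^ 2) * t)) =
      |Real.sqrt (1 - ‖v‖ ^ 2) - Real.sqrt (1 - ‖v'‖ ^ 2)| * t := by
    rw [hζ' _ _ (mul_nonneg (Real.sqrt_nonneg _) ht) (mul_nonneg (Real.sqrt_nonneg _) ht),
      ← sub_mul, abs_mul, abs_of_nonneg ht]
  unfold stdRay
  rw [h2] at h1
  rw [h4] at h3
  linarith

/-- Distance of a standard ray from the ray of direction `u`, exactly.  Proof: the square is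
`‖t • v - t • u‖ ^ 2 + (1 - ‖v‖ ^ 2) * t ^ 2`. -/
theorem stdRay_dist_base {Ψ : Euc k → Z → X} (hΨ : IsProductMap Ψ) {z₀ : Z} {u v : Euc k}
    (hu : ‖u‖ = 1) (hv : ‖v‖ ≤ 1) {ζ : ℝ → Z} (hζ : IsRay ζ) (h0 : ζ 0 = z₀) {t : ℝ}
    (ht : 0 ≤ t) :
    dist (stdRay Ψ v ζ t) (Ψ (t • u) z₀) = t * Real.sqrt (2 - 2 * inner ℝ v u) := by
  have hβ : 0 ≤ 1 - ‖v‖ ^ 2 := by nlinarith [norm_nonneg v]
  have h1 := hΨ (t • v) (t • u) (ζ (Real.sqrt (1 - ‖v‖ ^ 2) * t)) z₀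
  have h2 : dist (t • v) (t • u) = t * ‖v - u‖ := by
    rw [dist_eq_norm, ← smul_sub, norm_smul, Real.norm_eq_abs, abs_of_nonneg ht]
  have h3 : dist (ζ (Real.sqrt (1 - ‖v‖ ^ 2) * t)) z₀ = Real.sqrt (1 - ‖v‖ ^ 2) * t := by
    rw [← h0, hζ _ _ (mul_nonneg (Real.sqrt_nonneg _) ht) le_rfl, sub_zero,
      abs_of_nonneg (mul_nonneg (Real.sqrt_nonneg _) ht)]
  have h4 : ‖v - u‖ ^ 2 = ‖v‖ ^ 2 - 2 * inner ℝ v u + ‖u‖ ^ 2 := norm_sub_sq_real v u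
  have h5 : inner ℝ v u ≤ 1 := by
    have h6 := real_inner_le_norm v u
    rw [hu, mul_one] at h6
    exact h6.trans hv
  have h7 : 0 ≤ 2 - 2 * inner ℝ v u := by linarith
  have h8 : dist (stdRay Ψ v ζ t) (Ψ (t • u) z₀) ^ 2 =
      (t * Real.sqrt (2 - 2 * inner ℝ v u)) ^ 2 := by
    unfold stdRay
    rw [h1, h2, h3, mul_pow, mul_pow, mul_pow, h4, hu, Real.sq_sqrt hβ, Real.sq_sqrt h7]
    ring
  exact (pow_left_inj₀ dist_nonneg (mul_nonneg ht (Real.sqrt_nonneg _)) two_ne_zero).1 h8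

/-- Standard rays which stay at distance `A + δ * t` are close in both coordinates.  Proof.  By
`ray_growth` (both are rays from `Ψ 0 z₀`, `region_ray` with `a = 0`) the distance at time `t` is at most
`δ * t`.  By `IsProductMap.dist_fst_le` `t * ‖v - v'‖ ≤ δ * t`; by `IsProductMap.dist_snd_le`
`dist (ζ (β * t)) (ζ' (β' * t)) ≤ δ * t`, where `dist z₀ (ζ (β * t)) = β * t` etc., so `|β - β'| ≤ δ`, and
`dist (ζ (β * t)) (ζ' (β * t)) ≤ 2 * δ * t`. -/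
theorem stdRay_close (hX : IsCAT0 X) {Ψ : Euc k → Z → X} (hΨ : IsProductMap Ψ) {z₀ : Z}
    {v v' : Euc k} (hv : ‖v‖ ≤ 1) (hv' : ‖v'‖ ≤ 1) {ζ ζ' : ℝ → Z} (hζ : IsRay ζ) (hζ' : IsRay ζ')
    (h0 : ζ 0 = z₀) (h0' : ζ' 0 = z₀) {A δ : ℝ}
    (h : ∀ t : ℝ, 0 ≤ t → dist (stdRay Ψ v ζ t) (stdRay Ψ v' ζ' t) ≤ A + δ * t) :
    ‖v - v'‖ ≤ δ ∧ |Real.sqrt (1 - ‖v‖ ^ 2) - Real.sqrt (1 - ‖v'‖ ^ 2)| ≤ δ ∧
      ∀ t : ℝ, 0 ≤ t →
        dist (ζ (Real.sqrt (1 - ‖v‖ ^ 2) * t)) (ζ' (Real.sqrt (1 - ‖v‖ ^ 2) * t)) ≤ 2 * δ * t := by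
  have hr : IsRay (stdRay Ψ v ζ) := by
    have h1 := region_ray hΨ hv hζ (0 : Euc k)
    simp only [zero_add] at h1
    exact h1
  have hr' : IsRay (stdRay Ψ v' ζ') := by
    have h1 := region_ray hΨ hv' hζ' (0 : Euc k)
    simp only [zero_add] at h1
    exact h1
  have e0 : dist (stdRay Ψ v ζ 0) (stdRay Ψ v' ζ' 0) = 0 := by
    unfold stdRay
    rw [zero_smul, zero_smul, mul_zero, mul_zero, h0, h0', dist_self]
  have h1 : ∀ t : ℝ, 0 ≤ t → dist (stdRay Ψ v ζ t) (stdRay Ψ v' ζ' t) ≤ δ * t := by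
    intro t ht
    have h2 := ray_growth hX hr hr' h ht
    rw [e0, zero_add] at h2
    exact h2
  have h2 : ∀ t : ℝ, 0 ≤ t → dist (ζ (Real.sqrt (1 - ‖v‖ ^ 2) * t))
      (ζ' (Real.sqrt (1 - ‖v'‖ ^ 2) * t)) ≤ δ * t := fun t ht =>
    (hΨ.dist_snd_le (t • v) (t • v') _ _).trans (h1 t ht)
  have h3 : |Real.sqrt (1 - ‖v‖ ^ 2) - Real.sqrt (1 - ‖v'‖ ^ 2)| ≤ δ := by
    have h4 := h2 1 zero_le_one
    rw [mul_one, mul_one, mul_one] at h4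
    have h5 : dist (ζ (Real.sqrt (1 - ‖v‖ ^ 2))) z₀ = Real.sqrt (1 - ‖v‖ ^ 2) := by
      rw [← h0, hζ _ _ (Real.sqrt_nonneg _) le_rfl, sub_zero, abs_of_nonneg (Real.sqrt_nonneg _)]
    have h6 : dist (ζ' (Real.sqrt (1 - ‖v'‖ ^ 2))) z₀ = Real.sqrt (1 - ‖v'‖ ^ 2) := by
      rw [← h0', hζ' _ _ (Real.sqrt_nonneg _) le_rfl, sub_zero, abs_of_nonneg (Real.sqrt_nonneg _)]
    have h7 := abs_dist_sub_le (ζ (Real.sqrt (1 - ‖v‖ ^ 2))) (ζ' (Real.sqrt (1 - ‖v'‖ ^ 2))) z₀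
    rw [h5, h6] at h7
    exact h7.trans h4
  refine ⟨?_, h3, fun t ht => ?_⟩
  · have h4 := (hΨ.dist_fst_le ((1 : ℝ) • v) ((1 : ℝ) • v') _ _).trans (h1 1 zero_le_one)
    rw [one_smul, one_smul, mul_one, dist_eq_norm] at h4
    exact h4
  · have h4 := dist_triangle (ζ (Real.sqrt (1 - ‖v‖ ^ 2) * t))
      (ζ' (Real.sqrt (1 - ‖v'‖ ^ 2) * t)) (ζ' (Real.sqrt (1 - ‖v‖ ^ 2) * t))
    have h5 : dist (ζ' (Real.sqrt (1 - ‖v'‖ ^ 2) * t)) (ζ' (Real.sqrt (1 - ‖v‖ ^ 2) * t)) =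
        |Real.sqrt (1 - ‖v‖ ^ 2) - Real.sqrt (1 - ‖v'‖ ^ 2)| * t := by
      rw [hζ' _ _ (mul_nonneg (Real.sqrt_nonneg _) ht) (mul_nonneg (Real.sqrt_nonneg _) ht),
        ← sub_mul, abs_mul, abs_of_nonneg ht, abs_sub_comm]
    have h6 := h2 t ht
    have h7 := mul_le_mul_of_nonneg_right h3 ht
    rw [h5] at h4
    linarith

/-- Every ray asymptotic to a ray of the region whose `Euc k`-velocity has norm less than one is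
asymptotic to a standard ray with base point `z₀`.  Proof.  By `ray_near_region` (from the point
`(0, z₀)`) it is asymptotic to a ray `t ↦ Ψ (x t) (z t)` with `x 0 = 0`, `z 0 = z₀`; `product_ray` gives
`x t = t • v` and `dist (z s) (z t) = β * |s - t|`, `β = √(1 - ‖v‖ ^ 2)`.  Either `β = 0` (then
`‖v‖ = 1`) and the ray is `t ↦ Ψ (t • v) z₀`, or `β > 0` and `ζ s = z (s / β)` is a ray. -/
theorem exists_stdRay [ProperSpace X] [CompleteSpace Z] (hX : IsCAT0 X) (hZ : IsCAT0 Z)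
    {Ψ : Euc k → Z → X} (hΨ : IsProductMap Ψ) {c : ℝ → X} (hc : IsRay c) (z₀ : Z)
    (h : ∃ (x : ℝ → Euc k) (z : ℝ → Z), IsRay (fun t => Ψ (x t) (z t)) ∧
      ∃ D : ℝ, ∀ t : ℝ, 0 ≤ t → dist (c t) (Ψ (x t) (z t)) ≤ D) :
    ∃ v : Euc k, ‖v‖ ≤ 1 ∧
      ((‖v‖ = 1 ∧ ∃ D : ℝ, ∀ t : ℝ, 0 ≤ t → dist (c t) (Ψ (t • v) z₀) ≤ D) ∨
       (‖v‖ < 1 ∧ ∃ ζ : ℝ → Z, IsRay ζ ∧ ζ 0 = z₀ ∧
        ∃ D : ℝ, ∀ t : ℝ, 0 ≤ t → dist (c t) (stdRay Ψ v ζ t) ≤ D)) := by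
  obtain ⟨x, z, hxz, D, hD⟩ := h
  have h1 : ∀ t : ℝ, 0 ≤ t → infDist (c t) (region Ψ) ≤ D := fun t ht =>
    (infDist_le_dist_of_mem (show Ψ (x t) (z t) ∈ region Ψ from ⟨x t, z t, rfl⟩)).trans (hD t ht)
  obtain ⟨x', z', hr, hx0, hz0, hd⟩ := ray_near_region hX hZ hΨ hc h1 0 z₀
  obtain ⟨v, hv, hx, hz⟩ := product_ray hX hZ hΨ hr
  have hx' : ∀ t : ℝ, 0 ≤ t → x' t = t • v := by
    intro t ht
    rw [hx t ht, hx0, zero_add]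
  refine ⟨v, hv, ?_⟩
  rcases hv.lt_or_eq with hlt | heq
  · right
    refine ⟨hlt, ?_⟩
    have hβ : 0 < Real.sqrt (1 - ‖v‖ ^ 2) := by
      apply Real.sqrt_pos.2
      nlinarith [norm_nonneg v]
    refine ⟨fun s => z' (s / Real.sqrt (1 - ‖v‖ ^ 2)), ?_, ?_, dist (c 0) (Ψ 0 z₀), ?_⟩
    · intro s t hs ht
      show dist (z' (s / Real.sqrt (1 - ‖v‖ ^ 2))) (z' (t / Real.sqrt (1 - ‖v‖ ^ 2))) = |s - t|
      rw [hz _ _ (div_nonneg hs hβ.le) (div_nonneg ht hβ.le), ← sub_div, abs_div, abs_of_pos hβ,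
        mul_div_cancel₀ _ hβ.ne']
    · show z' (0 / Real.sqrt (1 - ‖v‖ ^ 2)) = z₀
      rw [zero_div, hz0]
    · intro t ht
      have h2 := hd t ht
      show dist (c t) (Ψ (t • v) (z' (Real.sqrt (1 - ‖v‖ ^ 2) * t / Real.sqrt (1 - ‖v‖ ^ 2)))) ≤ _
      rw [mul_div_cancel_left₀ _ hβ.ne', ← hx' t ht]
      exact h2
  · left
    refine ⟨heq, dist (c 0) (Ψ 0 z₀), fun t ht => ?_⟩
    have h2 := hd t ht
    have h3 : z' t = z₀ := by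
      have h4 := hz t 0 ht le_rfl
      rw [heq, one_pow, sub_self, Real.sqrt_zero, zero_mul, dist_eq_zero] at h4
      rw [h4, hz0]
    rw [h3, hx' t ht] at h2
    exact h2

end Pool.Agent.H18TC
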