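import Pool.Agent.Lib.H18TC.PR

/-!
# PSA: the lifted open set
-/

set_option autoImplicit false

namespace Pool.Agent.H18TC

open Filter Topology Metric
open Pool.Agent.H18TB

variable {X Z : Type} [MetricSpace X] [MetricSpace Z] {k : ℕ}

/-- The open set: rays `c` from `x₀` asymptotic to a standard ray `stdRay Ψ v ζ` with `‖v‖ < 1`,
`ζ` in the given set `V` of rays of `Z`, and `2 - 2 * ⟪v, u⟫ < ε ^ 2`. -/
def liftSet (Ψ : Euc k → Z → X) (u : Euc k) (ε : ℝ) (V : Set (ℝ → Z)) (x₀ : X) : Set (ℝ → X) :=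
  {c | c 0 = x₀ ∧ IsRay c ∧ ∃ (v : Euc k) (ζ : ℝ → Z), ‖v‖ < 1 ∧ ζ ∈ V ∧
    2 - 2 * inner ℝ v u < ε ^ 2 ∧ ∃ D : ℝ, ∀ t : ℝ, 0 ≤ t → dist (c t) (stdRay Ψ v ζ t) ≤ D}

/-- Proof: `v = a • u` with `a < 1` close to `1`, any `ζ ∈ V`, and `exists_asymptotic_ray`. -/
theorem liftSet_nonempty [ProperSpace X] (hX : IsCAT0 X) {Ψ : Euc k → Z → X}
    (hΨ : IsProductMap Ψ) {z₀ : Z} {u : Euc k} (hu : ‖u‖ = 1) {ε : ℝ} (hε : 0 < ε)
    {V : Set (ℝ → Z)} (hV : V.Nonempty) (hVr : ∀ ζ ∈ V, ζ 0 = z₀ ∧ IsRay ζ) (x₀ : X) :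
    (liftSet Ψ u ε V x₀).Nonempty := by
  obtain ⟨ζ, hζ⟩ := hV
  have hε2 : 0 < ε ^ 2 := by positivity
  set a : ℝ := max 0 (1 - ε ^ 2 / 4) with ha
  have ha0 : 0 ≤ a := le_max_left _ _
  have ha1 : a < 1 := max_lt one_pos (by linarith)
  have ha2 : 1 - ε ^ 2 / 4 ≤ a := le_max_right _ _
  have hnorm : ‖a • u‖ = a := by
    rw [norm_smul, hu, mul_one, Real.norm_eq_abs, abs_of_nonneg ha0]
  have hv : ‖a • u‖ < 1 := by rw [hnorm]; exact ha1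
  have hinner : inner ℝ (a • u) u = a := by
    rw [real_inner_smul_left, real_inner_self_eq_norm_sq, hu]
    ring
  have hray : IsRay (stdRay Ψ (a • u) ζ) := by
    have h := region_ray hΨ hv.le (hVr ζ hζ).2 (0 : Euc k)
    simp only [zero_add] at h
    exact h
  obtain ⟨c, hc, hc0, hc1⟩ := exists_asymptotic_ray hX hray x₀
  refine ⟨c, hc0, hc, a • u, ζ, hv, hζ, ?_, _, hc1⟩
  rw [hinner]
  linarith

end Pool.Agent.H18TC
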