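import Pool.Agent.Lib.H18TC.PSA

/-!
# PSB: the lifted set is open
-/

set_option autoImplicit false

namespace Pool.Agent.H18TC

open Filter Topology Metric
open Pool.Agent.H18TB

variable {X Z : Type} [MetricSpace X] [MetricSpace Z] {k : ℕ}

/-- Openness.  Proof.  Let `c ∈ liftSet` with `v`, `ζ`, `D`, `β = √(1 - ‖v‖ ^ 2) > 0`, `η` the openness
constant of `V` at `ζ`.  Choose `δ > 0` with `δ < β`, `2 * δ / β ≤ η`, `2 - 2 * ⟪v, u⟫ + 2 * δ < ε ^ 2` and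
`δ + √(2 - 2 * ⟪v, u⟫) ≤ ε`.  Let `c'` be a ray from `x₀` with `dist (c t) (c' t) ≤ δ * t`.  By
`stdRay_dist_base` `dist (c' t) (Ψ (t • u) z₀) ≤ A + ε * t`, so by `hint` and `exists_stdRay` `c'` is
asymptotic to `Ψ (t • v') z₀` with `‖v'‖ = 1` or to `stdRay Ψ v' ζ'` with `‖v'‖ < 1`.  The first case is
`stdRay Ψ v' ζ` and in both cases `stdRay_close` gives `‖v - v'‖ ≤ δ`, `|β - β'| ≤ δ`; the first
case is excluded since `β' = 0` there and `δ < β`.  In the second case `2 - 2 * ⟪v', u⟫ < ε ^ 2` and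
`dist (ζ s) (ζ' s) ≤ 2 * δ / β * s ≤ η * s`, so `ζ' ∈ V`. -/
theorem liftSet_open [ProperSpace X] [CompleteSpace Z] (hX : IsCAT0 X) (hZ : IsCAT0 Z)
    {Ψ : Euc k → Z → X} (hΨ : IsProductMap Ψ) {z₀ : Z} {u : Euc k} (hu : ‖u‖ = 1) {ε : ℝ}
    (hε : 0 < ε)
    (hint : ∀ c : ℝ → X, IsRay c →
      (∃ A : ℝ, ∀ t : ℝ, 0 ≤ t → dist (c t) (Ψ (t • u) z₀) ≤ A + ε * t) →
      ∃ (x : ℝ → Euc k) (z : ℝ → Z), IsRay (fun t => Ψ (x t) (z t)) ∧
        ∃ D : ℝ, ∀ t : ℝ, 0 ≤ t → dist (c t) (Ψ (x t) (z t)) ≤ D)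
    {V : Set (ℝ → Z)} (hVr : ∀ ζ ∈ V, ζ 0 = z₀ ∧ IsRay ζ)
    (hVo : ∀ ζ ∈ V, ∃ η : ℝ, η > 0 ∧ ∀ ζ' : ℝ → Z, (ζ' 0 = z₀ ∧ IsRay ζ') →
      (∀ t : ℝ, t > 0 → dist (ζ t) (ζ' t) ≤ η * t) → ζ' ∈ V)
    (x₀ : X) {c : ℝ → X} (hc : c ∈ liftSet Ψ u ε V x₀) :
    ∃ δ : ℝ, δ > 0 ∧ ∀ c' : ℝ → X, (c' 0 = x₀ ∧ IsRay c') →
      (∀ t : ℝ, t > 0 → dist (c t) (c' t) ≤ δ * t) → c' ∈ liftSet Ψ u ε V x₀ := by
  obtain ⟨hc0, hcr, v, ζ, hv1, hζV, hvu, D, hD⟩ := hc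
  obtain ⟨hζ0, hζ⟩ := hVr ζ hζV
  obtain ⟨η, hη, hVη⟩ := hVo ζ hζV
  have hvn : 0 ≤ ‖v‖ := norm_nonneg v
  set β : ℝ := Real.sqrt (1 - ‖v‖ ^ 2) with hβd
  have hβ : 0 < β := by
    rw [hβd]
    apply Real.sqrt_pos.mpr
    nlinarith
  have hin : inner ℝ v u ≤ 1 := by
    have a1 := real_inner_le_norm v u
    rw [hu, mul_one] at a1
    linarith
  set s : ℝ := Real.sqrt (2 - 2 * inner ℝ v u) with hsd
  have hs0 : 0 ≤ s := Real.sqrt_nonneg _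
  have hs2 : s ^ 2 = 2 - 2 * inner ℝ v u := Real.sq_sqrt (by linarith)
  have hsε : s < ε := by
    rw [← hs2] at hvu
    exact lt_of_pow_lt_pow_left₀ 2 hε.le hvu
  obtain ⟨δ, hδ0, hδ1, hδ2, hδ3, hδ4⟩ : ∃ δ : ℝ, 0 < δ ∧ δ < β ∧ 2 * δ / β ≤ η ∧
      2 - 2 * inner ℝ v u + 2 * δ < ε ^ 2 ∧ δ + s ≤ ε := by
    refine ⟨min (β / 2) (min (η * β / 2) (min ((ε ^ 2 - s ^ 2) / 4) (ε - s))), ?_, ?_, ?_, ?_, ?_⟩
    · have e1 : 0 < β / 2 := by linarith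
      have e2 : 0 < η * β / 2 := by positivity
      have e3 : 0 < (ε ^ 2 - s ^ 2) / 4 := by nlinarith
      have e4 : 0 < ε - s := by linarith
      exact lt_min e1 (lt_min e2 (lt_min e3 e4))
    · exact (min_le_left _ _).trans_lt (by linarith)
    · have h1 : min (β / 2) (min (η * β / 2) (min ((ε ^ 2 - s ^ 2) / 4) (ε - s))) ≤ η * β / 2 :=
        (min_le_right _ _).trans (min_le_left _ _)
      rw [div_le_iff₀ hβ]
      linarith
    · have h1 : min (β / 2) (min (η * β / 2) (min ((ε ^ 2 - s ^ 2) / 4) (ε - s))) ≤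
          (ε ^ 2 - s ^ 2) / 4 :=
        (min_le_right _ _).trans ((min_le_right _ _).trans (min_le_left _ _))
      rw [← hs2]
      nlinarith
    · have h1 : min (β / 2) (min (η * β / 2) (min ((ε ^ 2 - s ^ 2) / 4) (ε - s))) ≤ ε - s :=
        (min_le_right _ _).trans ((min_le_right _ _).trans (min_le_right _ _))
      linarith
  refine ⟨δ, hδ0, ?_⟩
  rintro c' ⟨hc'0, hc'⟩ hcc
  have hcc' : ∀ t : ℝ, 0 ≤ t → dist (c t) (c' t) ≤ δ * t := by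
    intro t ht
    rcases ht.eq_or_lt with h | h
    · rw [← h, hc0, hc'0, dist_self, mul_zero]
    · exact hcc t h
  have hbase : ∀ t : ℝ, 0 ≤ t → dist (c' t) (Ψ (t • u) z₀) ≤ D + ε * t := by
    intro t ht
    have a1 := dist_triangle4 (c' t) (c t) (stdRay Ψ v ζ t) (Ψ (t • u) z₀)
    have a2 := hcc' t ht
    have a3 := hD t ht
    have a4 := stdRay_dist_base hΨ hu hv1.le hζ hζ0 ht
    rw [← hsd] at a4
    rw [dist_comm (c' t) (c t), a4] at a1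
    have a5 : t * (δ + s) ≤ t * ε := mul_le_mul_of_nonneg_left hδ4 ht
    linarith
  obtain ⟨x, z, hxz, D₁, hD₁⟩ := hint c' hc' ⟨D, hbase⟩
  obtain ⟨v', hv'1, hcase⟩ := exists_stdRay hX hZ hΨ hc' z₀ ⟨x, z, hxz, D₁, hD₁⟩
  rcases hcase with ⟨hv'2, D', hD'⟩ | ⟨hv'2, ζ', hζ', hζ'0, D', hD'⟩
  · exfalso
    have e0 : Real.sqrt (1 - ‖v'‖ ^ 2) = 0 := by
      rw [hv'2]
      norm_num
    have e1 : ∀ t : ℝ, stdRay Ψ v' ζ t = Ψ (t • v') z₀ := by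
      intro t
      unfold stdRay
      rw [e0, zero_mul, hζ0]
    have h1 := stdRay_close hX hΨ (v := v) (v' := v') hv1.le hv'1 hζ hζ hζ0 hζ0
      (A := D + D') (δ := δ) (by
        intro t ht
        have a1 := dist_triangle4 (stdRay Ψ v ζ t) (c t) (c' t) (stdRay Ψ v' ζ t)
        have a2 := hcc' t ht
        have a3 := hD t ht
        have a4 := hD' t ht
        rw [dist_comm (stdRay Ψ v ζ t) (c t)] at a1
        rw [← e1 t] at a4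
        linarith)
    have h2 := h1.2.1
    rw [e0, sub_zero, ← hβd, abs_of_pos hβ] at h2
    linarith
  · have h1 := stdRay_close hX hΨ (v := v) (v' := v') hv1.le hv'1 hζ hζ' hζ0 hζ'0
      (A := D + D') (δ := δ) (by
        intro t ht
        have a1 := dist_triangle4 (stdRay Ψ v ζ t) (c t) (c' t) (stdRay Ψ v' ζ' t)
        have a2 := hcc' t ht
        have a3 := hD t ht
        have a4 := hD' t ht
        rw [dist_comm (stdRay Ψ v ζ t) (c t)] at a1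
        linarith)
    refine ⟨hc'0, hc', v', ζ', hv'2, ?_, ?_, D', hD'⟩
    · refine hVη ζ' ⟨hζ'0, hζ'⟩ fun t ht => ?_
      have h2 := h1.2.2 (t / β) (by positivity)
      rw [← hβd, mul_div_cancel₀ _ hβ.ne'] at h2
      have h3 : 2 * δ * (t / β) = 2 * δ / β * t := by ring
      rw [h3] at h2
      exact h2.trans (mul_le_mul_of_nonneg_right hδ2 ht.le)
    · have h2 : inner ℝ v u - inner ℝ v' u ≤ δ := by
        rw [← inner_sub_left]
        refine (real_inner_le_norm _ _).trans ?_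
        rw [hu, mul_one]
        exact h1.1
      linarith

end Pool.Agent.H18TC
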